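import Pool.Agent.SOJ.Defs

/-! Project SOJ: the condition for complete graphs on five points when there are mates (generated). -/

set_option autoImplicit false
set_option maxRecDepth 100000
set_option linter.unusedVariables false

namespace Pool.Agent.SOJ

open Pool.Agent.SOC Pool.Agent.SOD Pool.Agent.RUP Pool.Agent.SOF Pool.Agent.SOG

/-- graph, crossing relation, structure, mates -/
structure KSy (V : Type) where
  G : SimpleGraph V
  X : V → V → V → V → Prop
  T : V → V → V → V → Prop
  M : V → V → Prop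
  x1 : ∀ {a b c d}, X a b c d → X b a c d
  x2 : ∀ {a b c d}, X a b c d → X c d a b
  t1 : ∀ {a b c d}, T a b c d → T b a c d
  t2 : ∀ {a b c d}, T a b c d → T c d a b
  ms : ∀ {a b}, M a b → M b a

/-- the relations -/
def KSy.rel {V : Type} (Y : KSy V) : SRel V where
  r2 := fun r a b => match r with
    | 0 => Y.G.Adj a b
    | 1 => Y.M a b
    | _ => False
  r3 := fun _ _ _ _ => False
  r4 := fun r a b c d => match r with
    | 0 => Y.X a b c d
    | 1 => Y.T a b c d
    | _ => False
  s2 := by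
    intro r a b h
    match r, h with
    | 0, h => exact SimpleGraph.Adj.symm h
    | 1, h => exact Y.ms h
  s3 := fun h => h
  s3' := fun h => h
  s4 := by
    intro r a b c d h
    match r, h with
    | 0, h => exact Y.x1 h
    | 1, h => exact Y.t1 h
  s4' := by
    intro r a b c d h
    match r, h with
    | 0, h => exact Y.x2 h
    | 1, h => exact Y.t2 h

/-- the hypotheses -/
structure KM {V : Type} (G : SimpleGraph V) (X T : V → V → V → V → Prop) (M : V → V → Prop) : Prop where
  t1 : ∀ {a b c d}, T a b c d → T b a c d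
  t2 : ∀ {a b c d}, T a b c d → T c d a b
  ms : ∀ {a b}, M a b → M b a
  m1 : ∀ {a b c}, M a b → M a c → b = c
  cons : ∀ {a b c d}, M a b → ¬ X a b c d
  nc : ∀ {a b c d}, T a b c d → ¬ X a b c d
  nb : ∀ {a b c d}, T a b c d → ¬ T a c b d
  some : ∀ {a b c d}, G.Adj a c → G.Adj b d → a ≠ b → a ≠ d → b ≠ c → c ≠ d → X a c b d → T a b c d ∨ T a d b c
  z1 : ∀ {s p a b c}, M s p → K5 G s p a b c → T s p a b → T s p b c → T s p a c
  z2 : ∀ {s p a b c}, M s p → K5 G s p a b c → T s p a b ∨ T s p a c ∨ T s p b c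
  z3 : ∀ {s p a b c}, M s p → K5 G s p a b c → ¬ T s p a b → ¬ T s p a c → ¬ X s a b c
  b : ∀ {s p a b c}, M s p → K5 G s p a b c → T s a b c → T p a b c
  c : ∀ {s p a b c}, M s p → K5 G s p a b c → ¬ T s p a b → ¬ T s p a c → T s a b c
  k5 : ∀ {a b c d x}, K5 G a b c d x → ¬ M a b → ¬ M a c → ¬ M a d → ¬ M a x → ¬ M b c → ¬ M b d → ¬ M b x → ¬ M c d → ¬ M c x → ¬ M d x →
    X x a c d → X x b c d → T a b c d → T a b c x

/-- templates -/
def kM : List Tm := [
  ⟨4, [], ad4, [.q true 0 0 1 2 3, .q true 0 0 2 1 3, .q true 0 0 3 1 2]⟩,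
  ⟨4, [], ad4, [.q false 0 0 1 2 3, .q false 0 0 2 1 3]⟩,
  ⟨5, [], ad5, [.q false 0 0 1 2 3, .q false 0 0 1 3 4, .q false 0 0 1 2 4]⟩,
  ⟨5, [], ad5, [.q false 0 0 1 2 3, .q true 0 0 1 3 4, .q true 0 0 1 2 4]⟩,
  ⟨3, [], [(0, 1), (0, 2), (1, 2)], [.b false 1 0 1, .b false 1 0 2]⟩,
  ⟨4, [], ad4, [.b false 1 0 1, .q false 0 0 1 2 3]⟩,
  ⟨4, [], ad4, [.q false 1 0 1 2 3, .q false 0 0 1 2 3]⟩,
  ⟨4, [], ad4, [.q false 1 0 1 2 3, .q false 1 0 2 1 3]⟩,
  ⟨4, [], ad4, [.b false 0 0 2, .b false 0 1 3, .q false 0 0 2 1 3, .q true 1 0 1 2 3, .q true 1 0 3 1 2]⟩,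
  ⟨5, [], ad5, [.b false 1 0 1, .b false 0 0 1, .b false 0 0 2, .b false 0 0 3, .b false 0 0 4, .b false 0 1 2, .b false 0 1 3, .b false 0 1 4, .b false 0 2 3, .b false 0 2 4, .b false 0 3 4, .q false 1 0 1 2 3, .q false 1 0 1 3 4, .q true 1 0 1 2 4]⟩,
  ⟨5, [], ad5, [.b false 1 0 1, .b false 0 0 1, .b false 0 0 2, .b false 0 0 3, .b false 0 0 4, .b false 0 1 2, .b false 0 1 3, .b false 0 1 4, .b false 0 2 3, .b false 0 2 4, .b false 0 3 4, .q true 1 0 1 2 3, .q true 1 0 1 2 4, .q true 1 0 1 3 4]⟩,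
  ⟨5, [], ad5, [.b false 1 0 1, .b false 0 0 1, .b false 0 0 2, .b false 0 0 3, .b false 0 0 4, .b false 0 1 2, .b false 0 1 3, .b false 0 1 4, .b false 0 2 3, .b false 0 2 4, .b false 0 3 4, .q true 1 0 1 2 3, .q true 1 0 1 2 4, .q false 0 0 2 3 4]⟩,
  ⟨5, [], ad5, [.b false 1 0 1, .b false 0 0 1, .b false 0 0 2, .b false 0 0 3, .b false 0 0 4, .b false 0 1 2, .b false 0 1 3, .b false 0 1 4, .b false 0 2 3, .b false 0 2 4, .b false 0 3 4, .q false 1 0 2 3 4, .q true 1 1 2 3 4]⟩,
  ⟨5, [], ad5, [.b false 1 0 1, .b false 0 0 1, .b false 0 0 2, .b false 0 0 3, .b false 0 0 4, .b false 0 1 2, .b false 0 1 3, .b false 0 1 4, .b false 0 2 3, .b false 0 2 4, .b false 0 3 4, .q true 1 0 1 2 3, .q true 1 0 1 2 4, .q true 1 0 2 3 4]⟩,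
  ⟨5, [], ad5, [.b false 0 0 1, .b false 0 0 2, .b false 0 0 3, .b false 0 0 4, .b false 0 1 2, .b false 0 1 3, .b false 0 1 4, .b false 0 2 3, .b false 0 2 4, .b false 0 3 4, .b true 1 0 1, .b true 1 0 2, .b true 1 0 3, .b true 1 0 4, .b true 1 1 2, .b true 1 1 3, .b true 1 1 4, .b true 1 2 3, .b true 1 2 4, .b true 1 3 4, .q false 0 4 0 2 3, .q false 0 4 1 2 3, .q false 1 0 1 2 3, .q true 1 0 1 2 4]⟩]

theorem kM_h {V : Type} {Y : KSy V} (hX : Sepr Y.X) (q : KM Y.G Y.X Y.T Y.M) : UHs Y.rel kM :=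
  .cons (fun v n01 n02 n03 n12 n13 n23 h0 h1 h2 => (hX.one n01 n02 n03 n12 n13 n23).elim h0 (fun k => k.elim h1 h2)) (
  .cons (fun v n01 n02 n03 n12 n13 n23 h0 h1 => hX.amo h0 h1) (
  .cons (fun v n01 n02 n03 n04 n12 n13 n14 n23 n24 n34 h0 h1 h2 => hX.add h0 h1 h2) (
  .cons (fun v n01 n02 n03 n04 n12 n13 n14 n23 n24 n34 h0 h1 h2 => (hX.add2 h0 n34 n24 n04 n14).elim h1 h2) (
  .cons (fun v n01 n02 n12 h0 h1 => n12 (q.m1 h0 h1)) (
  .cons (fun v n01 n02 n03 n12 n13 n23 h0 h1 => q.cons h0 h1) (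
  .cons (fun v n01 n02 n03 n12 n13 n23 h0 h1 => q.nc h0 h1) (
  .cons (fun v n01 n02 n03 n12 n13 n23 h0 h1 => q.nb h0 h1) (
  .cons (fun v n01 n02 n03 n12 n13 n23 h0 h1 h2 h3 h4 => (q.some h0 h1 n01 n03 n12 n23 h2).elim h3 h4) (
  .cons (fun v n01 n02 n03 n04 n12 n13 n14 n23 n24 n34 h0 h1 h2 h3 h4 h5 h6 h7 h8 h9 h10 h11 h12 h13 => h13 (q.z1 h0 ⟨h1, h2, h3, h4, h5, h6, h7, h8, h9, h10⟩ h11 h12)) (
  .cons (fun v n01 n02 n03 n04 n12 n13 n14 n23 n24 n34 h0 h1 h2 h3 h4 h5 h6 h7 h8 h9 h10 h11 h12 h13 => (q.z2 h0 ⟨h1, h2, h3, h4, h5, h6, h7, h8, h9, h10⟩).elim h11 (fun k => k.elim h12 h13)) (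
  .cons (fun v n01 n02 n03 n04 n12 n13 n14 n23 n24 n34 h0 h1 h2 h3 h4 h5 h6 h7 h8 h9 h10 h11 h12 h13 => q.z3 h0 ⟨h1, h2, h3, h4, h5, h6, h7, h8, h9, h10⟩ h11 h12 h13) (
  .cons (fun v n01 n02 n03 n04 n12 n13 n14 n23 n24 n34 h0 h1 h2 h3 h4 h5 h6 h7 h8 h9 h10 h11 h12 => h12 (q.b h0 ⟨h1, h2, h3, h4, h5, h6, h7, h8, h9, h10⟩ h11)) (
  .cons (fun v n01 n02 n03 n04 n12 n13 n14 n23 n24 n34 h0 h1 h2 h3 h4 h5 h6 h7 h8 h9 h10 h11 h12 h13 => h13 (q.c h0 ⟨h1, h2, h3, h4, h5, h6, h7, h8, h9, h10⟩ h11 h12)) (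
  .cons (fun v n01 n02 n03 n04 n12 n13 n14 n23 n24 n34 h0 h1 h2 h3 h4 h5 h6 h7 h8 h9 h10 h11 h12 h13 h14 h15 h16 h17 h18 h19 h20 h21 h22 h23 => h23 (q.k5 ⟨h0, h1, h2, h3, h4, h5, h6, h7, h8, h9⟩ h10 h11 h12 h13 h14 h15 h16 h17 h18 h19 h20 h21 h22)) (
  .nil)))))))))))))))

/-- templates -/
def kk_x : List Tm := [
  ⟨0, [], [], [.b true 0 8 9]⟩,
  ⟨0, [], [], [.b true 0 8 10]⟩,
  ⟨0, [], [], [.b true 0 8 11]⟩,
  ⟨0, [], [], [.b true 0 8 12]⟩,
  ⟨0, [], [], [.b true 0 9 10]⟩,
  ⟨0, [], [], [.b true 0 9 11]⟩,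
  ⟨0, [], [], [.b true 0 9 12]⟩,
  ⟨0, [], [], [.b true 0 10 11]⟩,
  ⟨0, [], [], [.b true 0 10 12]⟩,
  ⟨0, [], [], [.b true 0 11 12]⟩,
  ⟨0, [], [], [.q true 0 12 8 10 11]⟩,
  ⟨0, [], [], [.q true 0 12 9 10 11]⟩,
  ⟨0, [], [], [.q true 1 8 9 10 11]⟩,
  ⟨0, [], [], [.q false 1 8 9 10 12]⟩]

def kk_p0 : List Nat := [
0x486003000000033021a000201,
0x64800b0000000330146000201,
0x80640b0000000330142000201,
0x64800d00000003301f1000201,
0x64820b0000000350148000201,
0x64820d0000000350207000201,
0x64200f00000003701b1000201,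
0x46200f00000003701a5000201,
0x204861900000003700000001f00000002100000002700000002300000002900000002d00000002500000002b00000002f000000031000000039014c000d01,
0x682401300864201d00048201100060420b00264800700482600700028600300804261b00602841b00824061b00086400f00000003100000002f00000002b00000002500000002d00000002900000002300000002700000002100000001f00000000e00000003300000003500000003700000000600000000400000000a00000001200000003900000000200000001000000000c00000000800ec022f00030202002204,
0x680421300864201d00084201100082400b00064820700000001400804261b00602841b00086420f00824061b00086400f00000003100000002f00000002b00000002500000002d00000002900000002300000002700000002100000001f00000001000000003300000003500000003700000000600000000400000000a00000001200000003900000000c00000000e0000000080231022f0003002103,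
0x864201300648201b00000003100000002f00000002b00000002500000002d00000002900000002300000002700000002100000003700000001f0000000390000000080134000f01,
0x864201d00842601b00860421900086200f00804261b00602841b00086420f00826041b00000001600000003300000003100000002f00000002b00000002500000002d00000002900000002300000002700000002100000001f00000003500000003700000001800000000600000000400000000a00000001200000003900000001000000000e00000000c0000000080231022b002002,
0x680421300860421b00000001a00000003100000002f00000002b00000002500000002d00000002900000002300000002700000002100000001f0000000100231013a000e02,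
0x482601300842601b00864201d00000001c00826041b00068401100000001600602841b00804261b00086420f00000003100000002f00000002b00000002500000002d00000002900000002300000002700000002100000001f00000001000000003900000003300000003500000003700000001800000000600000000400000000a00000001200000000c00000000e0000000080231002101,
0x68421100000003500000002d00000002b00000001e00ec000501,
0x806241b00000001000000000800000003100000001f00000002100000002700000002f00000002300000002900000002d00000002500000002b00000001e013a000e01,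
0x842061900000003900000001f00000002100000002700000002300000003100000002900000002d00000002500000002b00000002f000000020013e000d01,
0x682401300826041b00862401b00000000c00000000e00000001f00000002100000002700000002300000002900000002d00000002500000002b00000002f00000003100fa0138000f02,
0x480621300840621b00000003100000002f00000002b00000002500000002d00000002000000002900000002300000002700000002100000001f00000000e0000000390140000f01,
0x846201d00000002600206841900000003300000003100000002f00000002b00000002500000002d00000002900000002300000002700000002100000001f00000003500000003700000001800000002800000000600000000400000000a00000002200000001200000002400fa001801,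
0x862401900000001e00000001f00000002100000003100000002700000002300000002900000002d00000002500000002b00000002f00000002a0138000d01,
0x864201d00000003900000001200000002200000000a00000000400000000600000001800000002800000002400000003700000003500000001f00000002100000002700000002300000002900000002d00000002500000002b00000002f00000003100000003300000002c0019001801,
0x620841b00000003900000000e00000003100000001f00000002100000002700000002300000002900000002d00000002500000002b00000002f00000002e00ea000e01,
0x260841300000003900000001f00000002100000002700000002300000002900000002d00000002500000002b00000002f00000002000000003100000002e000000030000f00]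

def kk_pf : List Nat := kk_p0

theorem kk_ref {V : Type} {S : SRel V} {p : Nat → V} (hp : ∀ i j, i < 5 → j < 5 → p i = p j → i = j)
    (hts : PHs S p 5 (kM ++ kk_x)) : False :=
  refuteS (k := 5) (n2 := 2) (n3 := 1) (n4 := 2) (o3 := 30) (o4 := 65) (M := 305) (kM ++ kk_x) kk_pf (by decide +kernel)
    (by decide +kernel) (by decide +kernel) (by decide +kernel) hp hts

theorem k5M {V : Type} {G : SimpleGraph V} {X T : V → V → V → V → Prop} {M : V → V → Prop} (hX : Sepr X) (q : KM G X T M)
    {a b c d x : V} (k : K5 G a b c d x) (g1 : X x a c d) (g2 : X x b c d) (g3 : T a b c d) : T a b c x := by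
  by_contra g4
  obtain ⟨k0, k1, k2, k3, k4, k5, k6, k7, k8, k9⟩ := id k
  have nd : [a, b, c, d, x].Nodup := by
    simp only [List.nodup_cons, List.mem_cons, List.not_mem_nil, or_false, not_or, not_false_eq_true, List.nodup_nil, and_true]
    exact ⟨⟨k0.ne, k1.ne, k2.ne, k3.ne⟩, ⟨k4.ne, k5.ne, k6.ne⟩, ⟨k7.ne, k8.ne⟩, k9.ne⟩
  refine kk_ref (p := pt [a, b, c, d, x] a) (S := (KSy.mk G X T M hX.swap hX.comm q.t1 q.t2 q.ms).rel) (pt_inj nd rfl) ?_
  refine ((kM_h (Y := KSy.mk G X T M hX.swap hX.comm q.t1 q.t2 q.ms) hX q).phs _ _).app ?_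
  exact (.cons (fun d hd h0 => h0 k0) (.cons (fun d hd h0 => h0 k1) (.cons (fun d hd h0 => h0 k2) (.cons (fun d hd h0 => h0 k3) (.cons (fun d hd h0 => h0 k4) (.cons (fun d hd h0 => h0 k5) (.cons (fun d hd h0 => h0 k6) (.cons (fun d hd h0 => h0 k7) (.cons (fun d hd h0 => h0 k8) (.cons (fun d hd h0 => h0 k9) (.cons (fun d hd h0 => h0 g1) (.cons (fun d hd h0 => h0 g2) (.cons (fun d hd h0 => h0 g3) (.cons (fun d hd h0 => g4 h0) (.nil)))))))))))))))

end Pool.Agent.SOJ
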