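import Pool.Agent.SOJ.Pres2

/-! Project SOJ (MP_66ba69_lc), module Norm: there is a structure in normal form at all pairs. -/

set_option autoImplicit false

namespace Pool.Agent.SOJ

open Pool.Agent.SOC Pool.Agent.SOD Pool.Agent.RUP Pool.Agent.SOF Pool.Agent.SOG

variable {V : Type} {G : SimpleGraph V} {X T : V → V → V → V → Prop}

/-- the complement word is 212, without the condition on the edges -/
structure TyM (G : SimpleGraph V) (X : V → V → V → V → Prop) (s p f : V) : Prop where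
  f1 : U1 G s p f
  one : ∀ {a b c}, U2 G s p a → U2 G s p b → U1 G s p c → ¬ X a b f c

theorem TyM.n {s p f : V} (hX : Sepr X) (q : QT G X T) (hp : Pr4 G X s p) (h : TyM G X s p f) : TyN G X s p f :=
  ⟨h.f1, h.one, fun ha hb hx => cr_qt hX q hp ha hb h.f1 hx⟩

/-- a pair -/
def TyP (G : SimpleGraph V) (X : V → V → V → V → Prop) (s p : V) : Prop :=
  (∀ a, G.Adj s a → G.Adj p a → False) ∨ (Pr4 G X s p ∧ (TyA G X s p ∨ ∃ f, TyM G X s p f))

theorem nf_triv {s p : V} (h : ∀ a, G.Adj s a → G.Adj p a → False) : NFp G X T s p where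
  a1 := fun k _ => absurd (h _ k.2.1 k.2.2.2.1) id
  a0 := fun k _ => absurd (h _ k.2.1 k.2.2.2.1) id
  b := fun k => absurd (h _ k.2.1 k.2.2.2.2.1) id
  c := fun k _ _ => absurd (h _ k.2.1 k.2.2.2.2.1) id

theorem norm_list (hX : Sepr X) (q : QT G X T) : ∀ (L : List (V × V)), (∀ u ∈ L, TyP G X u.1 u.2) →
    L.Pairwise (fun u v => PP G u.1 u.2 v.1 v.2) → ∃ T', QT G X T' ∧ ∀ u ∈ L, NFp G X T' u.1 u.2
  | [], _, _ => ⟨T, q, fun u h => absurd h List.not_mem_nil⟩
  | w :: L, hL, hd => by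
    obtain ⟨T1, q1, h1⟩ := norm_list hX q L (fun u hu => hL u (List.mem_cons_of_mem _ hu)) (List.pairwise_cons.1 hd).2
    have hw := hL w List.mem_cons_self
    have hc : ∀ {T' : V → V → V → V → Prop}, NFp G X T' w.1 w.2 → (∀ u ∈ L, NFp G X T' u.1 u.2) → ∀ u ∈ w :: L, NFp G X T' u.1 u.2 := by
      intro T' a b u hu
      rcases List.mem_cons.1 hu with rfl | hu
      · exact a
      · exact b u hu
    rcases hw with hw | ⟨hp, ta | ⟨f, tm⟩⟩
    · exact ⟨T1, q1, hc (nf_triv hw) h1⟩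
    · exact ⟨T1, q1, hc (nfA hX q1 hp ta) h1⟩
    · have tn := tm.n hX q1 hp
      have q2 := mt_qt hX q1 hp tn
      refine ⟨_, q2, hc (mt_nf hX q1 hp tn) ?_⟩
      intro u hu
      have pp := (List.pairwise_cons.1 hd).1 u hu
      rcases hL u (List.mem_cons_of_mem _ hu) with hu' | ⟨hp2, ta2 | ⟨f2, tm2⟩⟩
      · exact nf_triv hu'
      · exact nfA hX q2 hp2 ta2
      · exact mt_pres hX q1 hp tn hp2 (tm2.n hX q1 hp2) pp (h1 u hu)

end Pool.Agent.SOJ
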