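import Pool.Agent.SOJ.NF

/-! Project SOJ (MP_66ba69_lc), module Cr: points adjacent to both points of the pair which are separated by a point adjacent to one of them only
are adjacent. -/

set_option autoImplicit false

namespace Pool.Agent.SOJ

open Pool.Agent.SOC Pool.Agent.SOD Pool.Agent.RUP Pool.Agent.SOF Pool.Agent.SOG

variable {V : Type} {G : SimpleGraph V} {X T : V → V → V → V → Prop} {s p f : V}

theorem sxr (hX : Sepr X) {a b c d : V} (h : X a b c d) : X a b d c := hX.comm (hX.swap (hX.comm h))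

theorem cr_aux (hX : Sepr X) (q : QT G X T) (hp : Pr4 G X s p) {a b : V} (ha : U2 G s p a) (hb : U2 G s p b) (hf : U1 G s p f)
    (h : X a b s f) (h1 : X s a p f) : G.Adj a b := by
  by_contra n
  have hab := (hX.dist h).1
  obtain ⟨f1, f2, f3, f4⟩ := u1_of hf
  have ap := hp.sub ha.1 ha.2
  have bp := hp.sub hb.1 hb.2
  have sw3 : ∀ {a b c d}, T a b c d → T a b d c := fun h => q.swap₂ (q.swap₁ (q.swap₂ h))
  have t1 : T s f p a := by
    rcases q.some ha.2.symm f3.symm hp.adj.ne f1.symm ha.1.symm (u12 ha hf) h1 with k | k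
    · exact absurd (q.adj (sw3 k)).symm f4
    · exact k
  have h2 : X s a p b := by
    rcases hX.add2 h1 (u12 hb hf).symm hb.1.symm hb.2.ne.symm hab with k | k
    · exact absurd (hX.swap (sxr hX k)) (hX.amo h)
    · exact k
  have t2 : T s p a b := by
    rcases q.some ha.2.symm bp.symm hp.adj.ne hb.2.ne.symm ha.1.symm hab h2 with k | k
    · exact k
    · exact absurd (q.adj (q.swap₁ (sw3 k))).symm n
  rcases q.ferrers (q.swap₂ (sw3 (q.swap₁ (q.swap₁ t1)))) (q.swap₂ t2) with k | k
  · exact absurd (q.adj (q.swap₁ (sw3 k))) (fun e => e.ne rfl)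
  · exact q.nocross k h

theorem cr_qt (hX : Sepr X) (q : QT G X T) (hp : Pr4 G X s p) {a b : V} (ha : U2 G s p a) (hb : U2 G s p b) (hf : U1 G s p f)
    (h : X a b s f) : G.Adj a b := by
  have h1 : X p f a b := by
    rcases hX.add2 h hf.2.1.ne hp.adj.ne ha.1 hb.1 with k | k
    · exact hX.comm (sxr hX k)
    · exact absurd (hX.comm k) (hp.cons _ _)
  rcases hX.add2 h1 hb.2.ne ha.2.ne hp.adj.ne.symm hf.1 with k | k
  · exact (cr_aux hX q hp hb ha hf (hX.swap h) (hX.comm (sxr hX k))).symm
  · exact cr_aux hX q hp ha hb hf h (hX.comm (sxr hX k))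

end Pool.Agent.SOJ
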