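import Pool.Agent.SOG.MainM

/-! Project SOJ (MP_66ba69_lc, the rigid step: normal form at the flippable pairs), module Defs. -/

set_option autoImplicit false

namespace Pool.Agent.SOJ

open Pool.Agent.SOC Pool.Agent.SOD Pool.Agent.RUP Pool.Agent.SOF Pool.Agent.SOG

variable {V : Type}

/-- `a` is adjacent to both points of the pair `s, p` -/
def U2 (G : SimpleGraph V) (s p a : V) : Prop := a ≠ p ∧ G.Adj a s

/-- `a` is adjacent to `p` only -/
def U1 (G : SimpleGraph V) (s p a : V) : Prop := a ≠ s ∧ G.Adj a p ∧ ¬ G.Adj a s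

/-- `a` and `b` are separated by a point which is adjacent to `p` only -/
def Sp (G : SimpleGraph V) (X : V → V → V → V → Prop) (s p a b : V) : Prop := ∃ f, U1 G s p f ∧ X a b f s

/-- a pair `s, p` of consecutive points, `s` has the smaller neighbourhood -/
structure Pr4 (G : SimpleGraph V) (X : V → V → V → V → Prop) (s p : V) : Prop where
  adj : G.Adj s p
  cons : ∀ c d, ¬ X s p c d
  sub : ∀ {a}, a ≠ p → G.Adj a s → G.Adj a p
  cl : ∀ {a b}, U2 G s p a → U1 G s p b → G.Adj a b

/-- complement word 121 -/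
structure TyA (G : SimpleGraph V) (X : V → V → V → V → Prop) (s p : V) : Prop where
  wit : ∃ y z, U1 G s p y ∧ U1 G s p z ∧ ∀ a, U2 G s p a → X y z s a
  ns : ∀ {a b}, U2 G s p a → U2 G s p b → ¬ Sp G X s p a b

/-- complement word 212, `f` is a point of the middle block -/
structure TyN (G : SimpleGraph V) (X : V → V → V → V → Prop) (s p f : V) : Prop where
  f1 : U1 G s p f
  one : ∀ {a b c}, U2 G s p a → U2 G s p b → U1 G s p c → ¬ X a b f c
  cr : ∀ {a b}, U2 G s p a → U2 G s p b → X a b s f → G.Adj a b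

/-- normal form at the pair `s, p` -/
structure NFp (G : SimpleGraph V) (X T : V → V → V → V → Prop) (s p : V) : Prop where
  a1 : ∀ {a b}, K4 G s p a b → ¬ Sp G X s p a b → T s p a b
  a0 : ∀ {a b}, K4 G s p a b → Sp G X s p a b → ¬ T s p a b
  b : ∀ {x y z}, K5 G s p x y z → (T s x y z ↔ T p x y z)
  c : ∀ {x y z}, K5 G s p x y z → Sp G X s p x y → Sp G X s p x z → T s x y z

/-- `a` faces `p` -/
def Fc (G : SimpleGraph V) (X : V → V → V → V → Prop) (s p f a : V) : Prop := U2 G s p a ∧ X s a p f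

end Pool.Agent.SOJ
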