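import Pool.Agent.SOJ.RefO

/-! Project SOJ (MP_66ba69_lc), module MT: the modification at a pair with complement word 212. -/

set_option autoImplicit false

namespace Pool.Agent.SOJ

open Pool.Agent.SOC Pool.Agent.SOD Pool.Agent.RUP Pool.Agent.SOF Pool.Agent.SOG

variable {V : Type} {G : SimpleGraph V} {X T : V → V → V → V → Prop} {s p f : V}

/-- one facing, one not: separated -/
theorem ord1 (hX : Sepr X) (hp : Pr4 G X s p) {a b : V} (n1 : s ≠ p) (n2 : s ≠ a) (n3 : s ≠ b) (n4 : s ≠ f) (n5 : p ≠ a) (n6 : p ≠ b)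
    (n7 : p ≠ f) (n8 : a ≠ b) (n9 : a ≠ f) (n10 : b ≠ f) (h1 : X s a p f) (h2 : ¬ X s b p f) : X a b s f := by
  by_contra h3
  refine oo1 (G := G) (T := X) hX hX.swap hX.comm ?_ hp.cons h1 h2 h3
  simp only [List.nodup_cons, List.mem_cons, List.not_mem_nil, or_false, not_or, not_false_eq_true, List.nodup_nil, and_true]
  exact ⟨⟨n1, n2, n3, n4⟩, ⟨n5, n6, n7⟩, ⟨n8, n9⟩, n10⟩

/-- both facing: not separated -/
theorem ord2 (hX : Sepr X) (hp : Pr4 G X s p) {a b : V} (n1 : s ≠ p) (n2 : s ≠ a) (n3 : s ≠ b) (n4 : s ≠ f) (n5 : p ≠ a) (n6 : p ≠ b)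
    (n7 : p ≠ f) (n8 : a ≠ b) (n9 : a ≠ f) (n10 : b ≠ f) (h1 : X s a p f) (h2 : X s b p f) : ¬ X a b f s := by
  intro h3
  refine oo2 (G := G) (T := X) hX hX.swap hX.comm ?_ hp.cons h1 h2 h3
  simp only [List.nodup_cons, List.mem_cons, List.not_mem_nil, or_false, not_or, not_false_eq_true, List.nodup_nil, and_true]
  exact ⟨⟨n1, n2, n3, n4⟩, ⟨n5, n6, n7⟩, ⟨n8, n9⟩, n10⟩

/-- a point between two facing points is facing -/
theorem ord3 (hX : Sepr X) (hp : Pr4 G X s p) {a b c : V} (n1 : s ≠ p) (n4 : s ≠ f) (n7 : p ≠ f) (n9 : a ≠ f) (n10 : b ≠ f)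
    (n11 : c ≠ f) (h1 : X s a p f) (h2 : X s b p f) (h3 : X a b c s) : X s c p f := by
  by_contra h4
  have sw : ∀ {a b c d}, X a b c d → X a b d c := fun h => hX.comm (hX.swap (hX.comm h))
  have d1 := hX.dist h3
  have d2 := hX.dist (hX.swap h3)
  have d3 := hX.dist (hX.comm h3)
  have d4 := hX.dist (sw h3)
  have d5 := hX.dist (hX.swap (sw h3))
  have d6 := hX.dist (hX.swap h1)
  have d7 := hX.dist (hX.swap h2)
  have ncp : c ≠ p := by
    rintro rfl
    exact hp.cons _ _ (hX.swap (hX.comm h3))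
  refine oo3 (G := G) (T := X) hX hX.swap hX.comm ?_ hp.cons h1 h2 h3 h4
  simp only [List.nodup_cons, List.mem_cons, List.not_mem_nil, or_false, not_or, not_false_eq_true, List.nodup_nil, and_true]
  exact ⟨⟨n1, d4.2.symm, d5.2.symm, d3.1.symm, n4⟩, ⟨d6.2.symm, d7.2.symm, ncp.symm, n7⟩, ⟨d1.1, d1.2, n9⟩, ⟨d2.2, n10⟩, n11⟩

/-- the cut at the pair -/
def cutP (G : SimpleGraph V) (s p : V) (F : V → Prop) : Cut V where
  S := fun a => a ≠ s ∧ a ≠ p
  A := fun a => a = s ∨ a = p ∨ G.Adj a p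
  B := fun _ => False
  K := fun a b => (a = b ∧ (a = s ∨ a = p ∨ G.Adj a p)) ∨ (F a ∧ F b)

theorem fc_s (hp : Pr4 G X s p) {a : V} (h : Fc G X s p f a) : a ≠ s ∧ a ≠ p := ⟨h.1.2.ne, h.1.1⟩

theorem nS {F : V → Prop} {d : V} (h : ¬ (cutP G s p F).S d) : d = s ∨ d = p := by
  by_cases e : d = s
  · exact Or.inl e
  · by_cases e' : d = p
    · exact Or.inr e'
    · exact absurd ⟨e, e'⟩ h

/-- a class 1' point does not separate ... : points of the middle block are not between two facing points -/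
theorem u1_out (hX : Sepr X) (hp : Pr4 G X s p) (tn : TyN G X s p f) {a b c : V} (ha : Fc G X s p f a) (hb : Fc G X s p f b)
    (hab : a ≠ b) (hc : U1 G s p c) : ¬ X a b c s := by
  intro h
  have hf := tn.f1
  obtain ⟨f1, f2, f3, f4⟩ := hf.1, hf.2.1.ne, hf.2.1, hf.2.2
  have nsp := hp.adj.ne
  have naf : a ≠ f := fun e => f4 (e ▸ ha.1.2)
  have nbf : b ≠ f := fun e => f4 (e ▸ hb.1.2)
  have h0 : ¬ X a b f s := ord2 hX hp nsp ha.1.2.ne.symm hb.1.2.ne.symm f1.symm ha.1.1.symm hb.1.1.symm f2.symm hab naf nbf ha.2 hb.2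
  by_cases e : c = f
  · exact h0 (e ▸ h)
  rcases hX.add2 h f1.symm e naf nbf with h2 | h2
  · exact h0 (hX.comm (hX.swap (hX.comm h2)))
  · exact tn.one ha.1 hb.1 hc (hX.comm (hX.swap (hX.comm h2)))

theorem cutP_ok (hX : Sepr X) (hp : Pr4 G X s p) (tn : TyN G X s p f) : (cutP G s p (Fc G X s p f)).Ok X where
  sepr := hX
  int := by
    intro a b c d _ _ hc hd h
    have h' := hX.comm h
    rcases nS hc with rfl | rfl <;> rcases nS hd with rfl | rfl
    · exact (hX.dist h').1 rfl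
    · exact hp.cons _ _ h'
    · exact hp.cons _ _ (hX.swap h')
    · exact (hX.dist h').1 rfl
  kS := by
    rintro a b (⟨rfl, _⟩ | ⟨_, h2⟩) h
    · exact h
    · exact fc_s hp h2
  kA := by
    rintro a b (⟨_, h⟩ | ⟨h, _⟩)
    · exact h
    · exact Or.inr (Or.inr (hp.sub h.1.1 h.1.2))
  kB := fun _ h => h
  ksym := by
    rintro a b (⟨rfl, h⟩ | ⟨h1, h2⟩)
    · exact Or.inl ⟨rfl, h⟩
    · exact Or.inr ⟨h2, h1⟩
  ktr := by
    rintro a b c (⟨rfl, h⟩ | ⟨h1, h2⟩) (⟨rfl, h'⟩ | ⟨h3, h4⟩)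
    · exact Or.inl ⟨rfl, h⟩
    · exact Or.inr ⟨h3, h4⟩
    · exact Or.inr ⟨h1, h2⟩
    · exact Or.inr ⟨h1, h4⟩
  kb := by
    rintro a b c d (⟨rfl, _⟩ | ⟨h1, h2⟩) hA _ hS hd h
    · exact absurd rfl (hX.dist h).1
    have sw : ∀ {a b c d}, X a b c d → X a b d c := fun h => hX.comm (hX.swap (hX.comm h))
    have hs : X a b c s := by
      rcases nS hd with rfl | rfl
      · exact h
      · rcases hX.add2 h hp.adj.ne.symm hS.1 (fc_s hp h1).1 (fc_s hp h2).1 with h3 | h3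
        · exact absurd (hX.swap (hX.comm h3)) (hp.cons _ _)
        · exact h3
    have hab := (hX.dist h).1
    have hcp : G.Adj c p := by
      rcases hA with e | e | e
      · exact absurd e hS.1
      · exact absurd e hS.2
      · exact e
    have hcs : G.Adj c s := by
      by_contra hn
      exact u1_out hX hp tn h1 h2 hab ⟨hS.1, hcp, hn⟩ hs
    have hf := tn.f1
    have n : ∀ {x : V}, G.Adj x s → x ≠ f := fun h e => hf.2.2 (e ▸ h)
    exact Or.inr ⟨h1, ⟨hS.2, hcs⟩, ord3 hX hp hp.adj.ne hf.1.symm hf.2.1.ne.symm (n h1.1.2) (n h2.1.2) (n hcs) h1.2 h2.2 hs⟩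
  kb' := by
    rintro a b c d (⟨rfl, _⟩ | ⟨h1, h2⟩) _ hn _ _ h
    · exact absurd rfl (hX.dist h).1
    · exact absurd (fc_s hp h1) hn

theorem cutP_bi (hp : Pr4 G X s p) : (cutP G s p (Fc G X s p f)).Bi G where
  xa := by
    intro a b ha hb h
    rcases nS hb with rfl | rfl
    · exact ⟨Or.inr (Or.inr (hp.sub ha.2 h)), Or.inl rfl⟩
    · exact ⟨Or.inr (Or.inr h), Or.inr (Or.inl rfl)⟩
  bi := by
    rintro a b c (⟨rfl, _⟩ | ⟨_, h2⟩) _ hc h
    · exact h
    rcases nS hc with rfl | rfl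
    · exact h2.1.2
    · exact hp.sub h2.1.1 h2.1.2
  bi' := by
    rintro a b c (⟨rfl, _⟩ | ⟨h1, _⟩) hn _ h
    · exact h
    · exact absurd (fc_s hp h1) hn

theorem half_of (q : QT G X T) (hX : Sepr X) : Half (cutP G s p (Fc G X s p f)) G X (cutP G s p (Fc G X s p f)).S T where
  swap₁ := q.swap₁
  swap₂ := q.swap₂
  ne := q.ne
  adj := q.adj
  nocross := q.nocross
  att := by
    intro a b c d _
    by_cases h : (cutP G s p (Fc G X s p f)).S a
    · exact Or.inl h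
    · rcases nS h with h | h
      · exact Or.inr (Or.inl h)
      · exact Or.inr (Or.inr (Or.inl h))
  d1 := by
    rintro a b c d h ha hb (⟨e, _⟩ | ⟨h1, _⟩)
    · exact q.ne h e
    · exact ha ⟨h1.1.2.ne, h1.1.1⟩
  d2 := by
    rintro a b c d h ha hb (⟨e, _⟩ | ⟨h1, _⟩)
    · exact (q.adj h).ne e
    · exact ha ⟨h1.1.2.ne, h1.1.1⟩
  nb := fun h h' => q.notboth (q.swap₂ (q.swap₁ (q.swap₂ h))) h'
  some := by
    intro a b c d h1 h2 hx _ _ _ _ _ _ _ _ _ _
    have sw : ∀ {a b c d}, X a b c d → X a b d c := fun h => hX.comm (hX.swap (hX.comm h))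
    exact q.some h1 h2 (hX.dist hx).2 (hX.dist (sw hx)).2 (hX.dist (hX.swap hx)).2.symm (hX.dist (hX.swap (sw hx))).2 hx
  trans := fun n _ h1 h2 => q.trans h1 h2 n
  ferrers := q.ferrers
  inv := by
    rintro a b c d e hd (⟨rfl, _⟩ | ⟨h1, _⟩) h
    · exact h
    · exact absurd ⟨h1.1.2.ne, h1.1.1⟩ hd

theorem qt_of (hX : Sepr X) (q : Half (cutP G s p (Fc G X s p f)) G X (cutP G s p (Fc G X s p f)).S T) : QT G X T := by
  have att : ∀ a, (cutP G s p (Fc G X s p f)).S a ∨ (cutP G s p (Fc G X s p f)).A a := by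
    intro a
    by_cases h : (cutP G s p (Fc G X s p f)).S a
    · exact Or.inl h
    · rcases nS h with h | h
      · exact Or.inr (Or.inl h)
      · exact Or.inr (Or.inr (Or.inl h))
  have kk : ∀ {a b}, a ≠ b → ((cutP G s p (Fc G X s p f)).S a ∨ (cutP G s p (Fc G X s p f)).S b ∨ ¬ (cutP G s p (Fc G X s p f)).K a b) := by
    intro a b hab
    by_cases h : (cutP G s p (Fc G X s p f)).S a
    · exact Or.inl h
    · refine Or.inr (Or.inr ?_)
      rintro (⟨e, _⟩ | ⟨h1, _⟩)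
      · exact hab e
      · exact h ⟨h1.1.2.ne, h1.1.1⟩
  exact
  { swap₁ := q.swap₁
    swap₂ := q.swap₂
    ne := q.ne
    adj := q.adj
    nocross := q.nocross
    some := fun h1 h2 n1 n2 n3 n4 hx => q.some h1 h2 hx (att _) (att _) (att _) (att _) (kk n1) (kk h1.ne) (kk n2) (kk n3) (kk h2.ne)
      (kk n4)
    notboth := fun h h' => q.nb (q.swap₂ (q.swap₁ (q.swap₂ h))) h'
    trans := fun h1 h2 n => q.trans n (kk n) h1 h2
    ferrers := q.ferrers }

/-- the hypotheses of the modification -/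
theorem mh (hX : Sepr X) (q : QT G X T) (hp : Pr4 G X s p) (tn : TyN G X s p f) :
    MH (cutP G s p (Fc G X s p f)) G T (Fc G X s p f) (fun a => a = p) (fun a => a = s) := by
  have hf := tn.f1
  have nsp := hp.adj.ne
  have n : ∀ {x : V}, G.Adj x s → x ≠ f := fun h e => hf.2.2 (e ▸ h)
  have hcp : ∀ {b}, (cutP G s p (Fc G X s p f)).S b → (cutP G s p (Fc G X s p f)).A b → G.Adj b p := by
    intro b hS hA
    rcases hA with e | e | e
    · exact absurd e hS.1
    · exact absurd e hS.2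
    · exact e
  have out : ∀ {a b}, Fc G X s p f a → Fc G X s p f b → a ≠ b → ¬ X a b f s := by
    intro a b ha hb hab
    exact ord2 hX hp nsp ha.1.2.ne.symm hb.1.2.ne.symm hf.1.symm ha.1.1.symm hb.1.1.symm hf.2.1.ne.symm hab (n ha.1.2) (n hb.1.2) ha.2 hb.2
  exact
  { fs := fun h => fc_s hp h
    fa := fun h => Or.inr (Or.inr (hp.sub h.1.1 h.1.2))
    fk := fun h1 h2 => Or.inr ⟨h1, h2⟩
    fk' := by
      rintro a b h (⟨rfl, _⟩ | ⟨_, h2⟩)
      · exact h
      · exact h2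
    ys := fun h h' => h'.2 h
    ya := fun h => Or.inr (Or.inl h)
    yk := fun h1 h2 => Or.inl ⟨h1.trans h2.symm, Or.inr (Or.inl h1)⟩
    yk' := by
      rintro a b h (⟨rfl, _⟩ | ⟨h1, _⟩)
      · exact h
      · exact absurd h h1.1.1
    os := fun h h' => h'.1 h
    oa := fun h => Or.inl h
    ok := fun h1 h2 => Or.inl ⟨h1.trans h2.symm, Or.inl h1⟩
    ok' := by
      rintro a b h (⟨rfl, _⟩ | ⟨h1, _⟩)
      · exact h
      · exact absurd h h1.1.2.ne
    yo := fun h1 h2 => nsp (h2.symm.trans h1)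
    ay := by
      rintro a b rfl hS hA
      exact (hcp hS hA).symm
    ay' := by
      rintro a b rfl hS _ hb
      rcases nS hS with rfl | rfl
      · exact hp.adj.symm
      · exact absurd rfl hb
    ax := by
      intro a b ha hS hA hb
      have h1 := hcp hS hA
      by_cases h2 : G.Adj b s
      · have hab : a ≠ b := fun e => hb (e ▸ ha)
        have h3 : ¬ X s b p f := fun h => hb ⟨⟨hS.2, h2⟩, h⟩
        exact tn.cr ha.1 ⟨hS.2, h2⟩ (ord1 hX hp nsp ha.1.2.ne.symm hS.1.symm hf.1.symm ha.1.1.symm hS.2.symm hf.2.1.ne.symm hab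
          (n ha.1.2) (n h2) ha.2 h3)
      · exact hp.cl ha.1 ⟨hS.1, h1, h2⟩
    ao := by
      rintro a b ha rfl
      exact ha.1.2
    ex := ⟨s, rfl⟩
    fact := by
      rintro a x y o hA hF hY hO hx hy hxy rfl hax hay
      have hS : (cutP G o p (Fc G X o p f)).S a := ⟨hO, hY⟩
      have h1 := hcp hS hA
      by_cases h2 : G.Adj a o
      · have h3 : ¬ X o a p f := fun h => hF ⟨⟨hS.2, h2⟩, h⟩
        by_contra h4
        refine ofa hX q (s := o) (p := p) (a := a) (x := x) (y := y) (f := f) ?_ hp.cons hf.2.1.symm hx.1.2.symm hy.1.2.symm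
          (hp.sub hx.1.1 hx.1.2).symm (hp.sub hy.1.1 hy.1.2).symm (hp.cl hx.1 hf).symm (hp.cl hy.1 hf).symm h1 hax hay h2
          (hp.cl ⟨hS.2, h2⟩ hf) (fun h => hf.2.2 h.symm) hx.2 hy.2 h3 h4
        simp only [List.nodup_cons, List.mem_cons, List.not_mem_nil, or_false, not_or, not_false_eq_true, List.nodup_nil, and_true]
        exact ⟨⟨nsp, h2.ne.symm, hx.1.2.ne.symm, hy.1.2.ne.symm, hf.1.symm⟩, ⟨h1.ne.symm, hx.1.1.symm, hy.1.1.symm, hf.2.1.ne.symm⟩,
          ⟨hax.ne, hay.ne, n h2⟩, ⟨hxy, n hx.1.2⟩, n hy.1.2⟩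
      · have h3 : ¬ X x y a o := u1_out hX hp tn hx hy hxy ⟨hO, h1, h2⟩
        have hno := hX.one hO hax.ne hay.ne hx.1.2.ne.symm hy.1.2.ne.symm hxy
        rcases hno with h | h | h
        · exact absurd (hX.comm h) h3
        · rcases q.some hax hy.1.2.symm hO hay.ne hx.1.2.ne.symm hxy h with h4 | h4
          · exact h4
          · exact absurd (q.adj h4) h2
        · rcases q.some hay hx.1.2.symm hO hax.ne hy.1.2.ne.symm hxy.symm h with h4 | h4
          · exact q.swap₂ (q.swap₁ (q.swap₂ h4))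
          · exact absurd (q.adj h4) h2 }

end Pool.Agent.SOJ
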