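import Pool.Agent.SOJ.RefN

/-! Project SOJ (MP_66ba69_lc), module NF: the normal form holds for complement word 121, and for complement word 212 after the
modification. -/

set_option autoImplicit false

namespace Pool.Agent.SOJ

open Pool.Agent.SOC Pool.Agent.SOD Pool.Agent.RUP Pool.Agent.SOF Pool.Agent.SOG

variable {V : Type} {G : SimpleGraph V} {X T : V → V → V → V → Prop} {s p f : V}

theorem u2_of (hp : Pr4 G X s p) {a : V} (h : G.Adj s a) (h' : G.Adj p a) : U2 G s p a := ⟨h'.ne.symm, h.symm⟩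

theorem u1_of {a : V} (h : U1 G s p a) : a ≠ s ∧ a ≠ p ∧ G.Adj a p ∧ ¬ G.Adj a s := ⟨h.1, h.2.1.ne, h.2.1, h.2.2⟩

theorem u12 {a b : V} (h : U2 G s p a) (h' : U1 G s p b) : a ≠ b := fun e => h'.2.2 (e ▸ h.2)

/-- separated by the point `f` of the middle block -/
theorem sp_f (hX : Sepr X) (tn : TyN G X s p f) {a b : V} (ha : U2 G s p a) (hb : U2 G s p b) (h : Sp G X s p a b) : X a b f s := by
  obtain ⟨c, hc, h1⟩ := h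
  by_cases e : c = f
  · rw [← e]
    exact h1
  have sw : ∀ {a b c d}, X a b c d → X a b d c := fun h => hX.comm (hX.swap (hX.comm h))
  have hf := tn.f1
  rcases hX.add2 (sw h1) e hf.1.symm (u12 ha hf) (u12 hb hf) with h2 | h2
  · exact absurd (sw h2) (tn.one ha hb hc)
  · exact sw h2

theorem nfA (hX : Sepr X) (q : QT G X T) (hp : Pr4 G X s p) (ta : TyA G X s p) : NFp G X T s p := by
  obtain ⟨y, z, hy, hz, hw⟩ := ta.wit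
  have key : ∀ a, U2 G s p a → G.Adj a y ∧ G.Adj a z ∧ X y z s a := fun a ha => ⟨hp.cl ha hy, hp.cl ha hz, hw a ha⟩
  have nyz : ∀ a, U2 G s p a → y ≠ z := fun a ha => (hX.dist (hw a ha)).1
  have nsp := hp.adj.ne
  obtain ⟨y1, y2, y3, y4⟩ := u1_of hy
  obtain ⟨z1, z2, z3, z4⟩ := u1_of hz
  have nd7 : ∀ {a b c : V}, K5 G s p a b c → [s, p, a, b, c, y, z].Nodup := by
    intro a b c k
    obtain ⟨k1, k2, k3, k4, k5, k6, k7, k8, k9, k10⟩ := k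
    have ha := u2_of hp k2 k5
    have hb := u2_of hp k3 k6
    have hc := u2_of hp k4 k7
    simp only [List.nodup_cons, List.mem_cons, List.not_mem_nil, or_false, not_or, not_false_eq_true, List.nodup_nil, and_true]
    exact ⟨⟨k1.ne, k2.ne, k3.ne, k4.ne, y1.symm, z1.symm⟩, ⟨k5.ne, k6.ne, k7.ne, y2.symm, z2.symm⟩, ⟨k8.ne, k9.ne, u12 ha hy, u12 ha hz⟩,
      ⟨k10.ne, u12 hb hy, u12 hb hz⟩, ⟨u12 hc hy, u12 hc hz⟩, nyz a ha⟩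
  refine ⟨?_, ?_, ?_, ?_⟩
  · intro a b k _
    by_contra hn
    have ha := u2_of hp k.2.1 k.2.2.2.1
    have hb := u2_of hp k.2.2.1 k.2.2.2.2.1
    obtain ⟨a1, a2, a3⟩ := key a ha
    obtain ⟨b1, b2, b3⟩ := key b hb
    refine aa1 hX q ?_ hp.cons k y3 y4 z3 z4 a1 a2 a3 b1 b2 b3 hn
    simp only [List.nodup_cons, List.mem_cons, List.not_mem_nil, or_false, not_or, not_false_eq_true, List.nodup_nil, and_true]
    exact ⟨⟨nsp, k.2.1.ne, k.2.2.1.ne, y1.symm, z1.symm⟩, ⟨k.2.2.2.1.ne, k.2.2.2.2.1.ne, y2.symm, z2.symm⟩,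
      ⟨k.2.2.2.2.2.ne, u12 ha hy, u12 ha hz⟩, ⟨u12 hb hy, u12 hb hz⟩, nyz a ha⟩
  · intro a b k h
    exact absurd h (ta.ns (u2_of hp k.2.1 k.2.2.2.1) (u2_of hp k.2.2.1 k.2.2.2.2.1))
  · intro a b c k
    have nd := nd7 k
    obtain ⟨k1, k2, k3, k4, k5, k6, k7, k8, k9, k10⟩ := id k
    obtain ⟨a1, a2, a3⟩ := key a (u2_of hp k2 k5)
    obtain ⟨b1, b2, b3⟩ := key b (u2_of hp k3 k6)
    obtain ⟨c1, c2, c3⟩ := key c (u2_of hp k4 k7)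
    constructor
    · intro h
      by_contra hn
      exact ab1 hX q nd hp.cons k y3 y4 z3 z4 a1 a2 a3 b1 b2 b3 c1 c2 c3 h hn
    · intro h
      by_contra hn
      exact ab2 hX q nd hp.cons k y3 y4 z3 z4 a1 a2 a3 b1 b2 b3 c1 c2 c3 h hn
  · intro a b c k h _
    obtain ⟨k1, k2, k3, k4, k5, k6, k7, k8, k9, k10⟩ := k
    exact absurd h (ta.ns (u2_of hp k2 k5) (u2_of hp k3 k6))

theorem nfN (hX : Sepr X) (q : QT G X T) (hp : Pr4 G X s p) (tn : TyN G X s p f)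
    (n1 : ∀ {a b c}, Fc G X s p f a → Fc G X s p f b → Fc G X s p f c → a ≠ b → a ≠ c → b ≠ c → (T p a b c ↔ T s a b c))
    (n2 : ∀ {a b}, Fc G X s p f a → Fc G X s p f b → a ≠ b → T s p a b) : NFp G X T s p := by
  have hf := tn.f1
  obtain ⟨f1, f2, f3, f4⟩ := u1_of hf
  have nsp := hp.adj.ne
  have nd6 : ∀ {a b c : V}, K5 G s p a b c → [s, p, a, b, c, f].Nodup := by
    intro a b c k
    obtain ⟨k1, k2, k3, k4, k5, k6, k7, k8, k9, k10⟩ := k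
    simp only [List.nodup_cons, List.mem_cons, List.not_mem_nil, or_false, not_or, not_false_eq_true, List.nodup_nil, and_true]
    exact ⟨⟨k1.ne, k2.ne, k3.ne, k4.ne, f1.symm⟩, ⟨k5.ne, k6.ne, k7.ne, f2.symm⟩, ⟨k8.ne, k9.ne, u12 (u2_of hp k2 k5) hf⟩,
      ⟨k10.ne, u12 (u2_of hp k3 k6) hf⟩, u12 (u2_of hp k4 k7) hf⟩
  have nd5 : ∀ {a b : V}, K4 G s p a b → [s, p, a, b, f].Nodup := by
    intro a b k
    simp only [List.nodup_cons, List.mem_cons, List.not_mem_nil, or_false, not_or, not_false_eq_true, List.nodup_nil, and_true]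
    exact ⟨⟨nsp, k.2.1.ne, k.2.2.1.ne, f1.symm⟩, ⟨k.2.2.2.1.ne, k.2.2.2.2.1.ne, f2.symm⟩,
      ⟨k.2.2.2.2.2.ne, u12 (u2_of hp k.2.1 k.2.2.2.1) hf⟩, u12 (u2_of hp k.2.2.1 k.2.2.2.2.1) hf⟩
  refine ⟨?_, ?_, ?_, ?_⟩
  · intro a b k hs
    have ha := u2_of hp k.2.1 k.2.2.2.1
    have hb := u2_of hp k.2.2.1 k.2.2.2.2.1
    by_contra hn
    exact na1 hX q (nd5 k) hp.cons k f3 f4 (hp.cl ha hf) (hp.cl hb hf) (fun h1 h2 => n2 ⟨ha, h1⟩ ⟨hb, h2⟩ k.2.2.2.2.2.ne)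
      (fun h => hs ⟨f, hf, h⟩) hn
  · intro a b k hs hn
    have ha := u2_of hp k.2.1 k.2.2.2.1
    have hb := u2_of hp k.2.2.1 k.2.2.2.2.1
    exact na0 hX q (nd5 k) hp.cons k f3 f4 (hp.cl ha hf) (hp.cl hb hf) (fun h1 h2 => n2 ⟨ha, h1⟩ ⟨hb, h2⟩ k.2.2.2.2.2.ne)
      (sp_f hX tn ha hb hs) hn
  · intro a b c k
    have nd := nd6 k
    obtain ⟨k1, k2, k3, k4, k5, k6, k7, k8, k9, k10⟩ := id k
    have ha := u2_of hp k2 k5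
    have hb := u2_of hp k3 k6
    have hc := u2_of hp k4 k7
    constructor
    · intro h
      by_contra hn
      exact nb1 hX q nd hp.cons k f3 f4 (hp.cl ha hf) (hp.cl hb hf) (hp.cl hc hf) (fun h1 h2 => n2 ⟨ha, h1⟩ ⟨hb, h2⟩ k8.ne)
        (fun h1 h2 => n2 ⟨ha, h1⟩ ⟨hc, h2⟩ k9.ne) (fun h1 h2 => n2 ⟨hb, h1⟩ ⟨hc, h2⟩ k10.ne)
        (fun h1 h2 h3 => n1 ⟨ha, h1⟩ ⟨hb, h2⟩ ⟨hc, h3⟩ k8.ne k9.ne k10.ne)
        (fun h1 h2 h3 => n1 ⟨hb, h2⟩ ⟨ha, h1⟩ ⟨hc, h3⟩ k8.ne.symm k10.ne k9.ne)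
        (fun h1 h2 h3 => n1 ⟨hc, h3⟩ ⟨ha, h1⟩ ⟨hb, h2⟩ k9.ne.symm k10.ne.symm k8.ne) h hn
    · intro h
      by_contra hn
      exact nb2 hX q nd hp.cons k f3 f4 (hp.cl ha hf) (hp.cl hb hf) (hp.cl hc hf) (fun h1 h2 => n2 ⟨ha, h1⟩ ⟨hb, h2⟩ k8.ne)
        (fun h1 h2 => n2 ⟨ha, h1⟩ ⟨hc, h2⟩ k9.ne) (fun h1 h2 => n2 ⟨hb, h1⟩ ⟨hc, h2⟩ k10.ne)
        (fun h1 h2 h3 => n1 ⟨ha, h1⟩ ⟨hb, h2⟩ ⟨hc, h3⟩ k8.ne k9.ne k10.ne)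
        (fun h1 h2 h3 => n1 ⟨hb, h2⟩ ⟨ha, h1⟩ ⟨hc, h3⟩ k8.ne.symm k10.ne k9.ne)
        (fun h1 h2 h3 => n1 ⟨hc, h3⟩ ⟨ha, h1⟩ ⟨hb, h2⟩ k9.ne.symm k10.ne.symm k8.ne) h hn
  · intro a b c k h1 h2
    have nd := nd6 k
    obtain ⟨k1, k2, k3, k4, k5, k6, k7, k8, k9, k10⟩ := id k
    have ha := u2_of hp k2 k5
    have hb := u2_of hp k3 k6
    have hc := u2_of hp k4 k7
    by_contra hn
    exact nc1 hX q nd hp.cons k f3 f4 (hp.cl ha hf) (hp.cl hb hf) (hp.cl hc hf) (fun h1 h2 => n2 ⟨ha, h1⟩ ⟨hb, h2⟩ k8.ne)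
        (fun h1 h2 => n2 ⟨ha, h1⟩ ⟨hc, h2⟩ k9.ne) (fun h1 h2 => n2 ⟨hb, h1⟩ ⟨hc, h2⟩ k10.ne)
        (fun h1 h2 h3 => n1 ⟨ha, h1⟩ ⟨hb, h2⟩ ⟨hc, h3⟩ k8.ne k9.ne k10.ne)
        (fun h1 h2 h3 => n1 ⟨hb, h2⟩ ⟨ha, h1⟩ ⟨hc, h3⟩ k8.ne.symm k10.ne k9.ne)
        (fun h1 h2 h3 => n1 ⟨hc, h3⟩ ⟨ha, h1⟩ ⟨hb, h2⟩ k9.ne.symm k10.ne.symm k8.ne) (sp_f hX tn ha hb h1) (sp_f hX tn ha hc h2) hn

end Pool.Agent.SOJ
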