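import Pool.Agent.SOJ.MT
import Pool.Agent.SOJ.NF

/-! Project SOJ (MP_66ba69_lc), module Pres: the modified structure; it is in normal form at its pair and keeps the normal form at other pairs. -/

set_option autoImplicit false

namespace Pool.Agent.SOJ

open Pool.Agent.SOC Pool.Agent.SOD Pool.Agent.RUP Pool.Agent.SOF Pool.Agent.SOG

variable {V : Type} {G : SimpleGraph V} {X T : V → V → V → V → Prop} {s p f : V}

/-- the modified structure -/
noncomputable def MT (G : SimpleGraph V) (X T : V → V → V → V → Prop) (s p f : V) : V → V → V → V → Prop :=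
  modT (cutP G s p (Fc G X s p f)) T (Fc G X s p f) (fun a => a = p) (fun a => a = s)

theorem mt_half (hX : Sepr X) (q : QT G X T) (hp : Pr4 G X s p) (tn : TyN G X s p f) :
    Half (cutP G s p (Fc G X s p f)) G X (cutP G s p (Fc G X s p f)).S (MT G X T s p f) :=
  mod_half (cutP_ok hX hp tn) (cutP_bi hp) (half_of q hX) (mh hX q hp tn)

theorem mt_qt (hX : Sepr X) (q : QT G X T) (hp : Pr4 G X s p) (tn : TyN G X s p f) : QT G X (MT G X T s p f) :=
  qt_of hX (mt_half hX q hp tn)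

/-- the value without `p` -/
theorem mt_no {a b c d : V} (q : QT G X T) (h1 : a ≠ p) (h2 : b ≠ p) (h3 : c ≠ p) (h4 : d ≠ p) : MT G X T s p f a b c d ↔ T a b c d := by
  unfold MT
  rw [mT0 (Y := fun a => a = p) h1 h2 h3 h4]
  exact ⟨fun h => h.2, fun h => ⟨⟨q.ne h, q.ne (q.swap₂ h)⟩, h⟩⟩

/-- the value with `p` -/
theorem mt_p {b c d : V} (h1 : b ≠ p) (h2 : c ≠ p) (h3 : d ≠ p) (h4 : c ≠ d) :
    MT G X T s p f p b c d ↔ mo (cutP G s p (Fc G X s p f)) T (Fc G X s p f) (fun a => a = s) p b c d := by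
  unfold MT
  rw [mT1 (Y := fun a => a = p) rfl h1 h2 h3]
  exact ⟨fun h => h.2, fun h => ⟨⟨h1.symm, h4⟩, h⟩⟩

section
variable {x y z : V}

/-- three facing points -/
theorem mt_fff (hX : Sepr X) (q : QT G X T) (hp : Pr4 G X s p) (tn : TyN G X s p f) (hx : Fc G X s p f x) (hy : Fc G X s p f y)
    (hz : Fc G X s p f z) (h : y ≠ z) : MT G X T s p f p x y z ↔ T s x y z := by
  rw [mt_p hx.1.1 hy.1.1 hz.1.1 h]
  exact mo_f (half_of q hX) (mh hX q hp tn) hx hy hz rfl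

/-- two facing points, the third one is attached (or `s`) -/
theorem mt_t (hx : ¬ Fc G X s p f x) (hxa : G.Adj x p) (hy : Fc G X s p f y) (hz : Fc G X s p f z) (h : y ≠ z) :
    MT G X T s p f p x y z := by
  rw [mt_p hxa.ne hy.1.1 hz.1.1 h]
  by_cases e : x = s
  · subst e
    exact mo_g1 (C := cutP G x p (Fc G X x p f)) hx hy hz (fun k => k.1 rfl) rfl
  · exact mo_g3 (C := cutP G s p (Fc G X s p f)) hx hy hz ⟨e, hxa.ne⟩ (Or.inr (Or.inr hxa))

theorem mt_f (hx : Fc G X s p f x) (hy : Fc G X s p f y) (hz : ¬ Fc G X s p f z) (hza : G.Adj z p) (h : y ≠ z) :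
    ¬ MT G X T s p f p x y z := by
  rw [mt_p hx.1.1 hy.1.1 hza.ne h]
  by_cases e : z = s
  · subst e
    exact fun k => mo_b1 (C := cutP G z p (Fc G X z p f)) (O := fun a => a = z) hx hy hz (fun k => k.1 rfl) rfl k
  · exact fun k => mo_b3 (C := cutP G s p (Fc G X s p f)) hx hy hz ⟨e, hza.ne⟩ (Or.inr (Or.inr hza)) k

/-- at most one facing point -/
theorem mt_1 (hx : x ≠ p) (hy : y ≠ p) (hz : z ≠ p) (h : y ≠ z) (h1 : ¬ Fc G X s p f y) (h2 : ¬ Fc G X s p f z) :
    MT G X T s p f p x y z ↔ T p x y z := by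
  rw [mt_p hx hy hz h]
  unfold mo
  by_cases k : Fc G X s p f x
  · rw [if_pos k, if_neg h1, if_neg h2]
  · rw [if_neg k, if_neg (fun e => h1 e.1)]

theorem mt_1' (hx : x ≠ p) (hy : y ≠ p) (hz : z ≠ p) (h : y ≠ z) (h1 : ¬ Fc G X s p f x) (h2 : ¬ Fc G X s p f z) :
    MT G X T s p f p x y z ↔ T p x y z := by
  rw [mt_p hx hy hz h]
  unfold mo
  rw [if_neg h1, if_neg (fun e => h2 e.2)]

theorem mt_1'' (hx : x ≠ p) (hy : y ≠ p) (hz : z ≠ p) (h : y ≠ z) (h1 : ¬ Fc G X s p f x) (h2 : ¬ Fc G X s p f y) :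
    MT G X T s p f p x y z ↔ T p x y z := by
  rw [mt_p hx hy hz h]
  unfold mo
  rw [if_neg h1, if_neg (fun e => h2 e.1)]

end

/-- normal form at the pair itself -/
theorem mt_nf (hX : Sepr X) (q : QT G X T) (hp : Pr4 G X s p) (tn : TyN G X s p f) : NFp G X (MT G X T s p f) s p := by
  have q' := mt_qt hX q hp tn
  have ns : ¬ Fc G X s p f s := fun h => h.1.2.ne rfl
  refine nfN hX q' hp tn ?_ ?_
  · intro a b c ha hb hc _ _ hbc
    rw [mt_fff hX q hp tn ha hb hc hbc, mt_no q hp.adj.ne ha.1.1 hb.1.1 hc.1.1]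
  · intro a b ha hb hab
    exact q'.swap₁ (mt_t ns hp.adj ha hb hab)

end Pool.Agent.SOJ
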