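import Pool.Agent.SOJ.Pres
import Pool.Agent.SOJ.Cr

/-! Project SOJ (MP_66ba69_lc), module Pres2: the modification keeps the normal form at the other pairs. -/

set_option autoImplicit false

namespace Pool.Agent.SOJ

open Pool.Agent.SOC Pool.Agent.SOD Pool.Agent.RUP Pool.Agent.SOF Pool.Agent.SOG

variable {V : Type} {G : SimpleGraph V} {X T : V → V → V → V → Prop} {s p f s2 p2 f2 : V}

/-- two pairs -/
structure PP (G : SimpleGraph V) (s p s2 p2 : V) : Prop where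
  ss : s ≠ s2
  sp : s ≠ p2
  ps : p ≠ s2
  pp : p ≠ p2
  h4 : G.Adj s p2 → G.Adj p s2 → G.Adj s s2

/-- a point which is not facing is not separated from `s` by two facing points -/
theorem fc_out (hX : Sepr X) (hp : Pr4 G X s p) (tn : TyN G X s p f) {a b x : V} (ha : Fc G X s p f a) (hb : Fc G X s p f b)
    (hx : ¬ Fc G X s p f x) (hx' : x = s ∨ x = p ∨ G.Adj x p) : ¬ X a b x s := by
  intro h
  have hab := (hX.dist h).1
  have hf := tn.f1
  have n : ∀ {x : V}, G.Adj x s → x ≠ f := fun h e => hf.2.2 (e ▸ h)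
  have hxs : x ≠ s := (hX.dist (hX.comm h)).1
  rcases hx' with e | e | e
  · exact hxs e
  · subst e
    exact hp.cons _ _ (hX.swap (hX.comm h))
  · by_cases h2 : G.Adj x s
    · exact hx ⟨⟨e.ne, h2⟩, ord3 hX hp hp.adj.ne hf.1.symm hf.2.1.ne.symm (n ha.1.2) (n hb.1.2) (n h2) ha.2 hb.2 h⟩
    · exact u1_out hX hp tn ha hb hab ⟨hxs, e, h2⟩ h

/-- two points which are not facing are not separated by two facing points -/
theorem fc_out2 (hX : Sepr X) (hp : Pr4 G X s p) (tn : TyN G X s p f) {a b x y : V} (ha : Fc G X s p f a) (hb : Fc G X s p f b)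
    (hx : ¬ Fc G X s p f x) (hx' : x = s ∨ x = p ∨ G.Adj x p) (hy : ¬ Fc G X s p f y) (hy' : y = s ∨ y = p ∨ G.Adj y p) : ¬ X a b x y := by
  intro h
  by_cases e1 : x = s
  · subst e1
    exact fc_out hX hp tn ha hb hy hy' (sxr hX h)
  by_cases e2 : y = s
  · subst e2
    exact fc_out hX hp tn ha hb hx hx' h
  rcases hX.add2 h e2 e1 (fc_s hp ha).1 (fc_s hp hb).1 with k | k
  · exact fc_out hX hp tn ha hb hy hy' k
  · exact fc_out hX hp tn ha hb hx hx' k

theorem mt_pres (hX : Sepr X) (q : QT G X T) (hp : Pr4 G X s p) (tn : TyN G X s p f) (hp2 : Pr4 G X s2 p2) (tn2 : TyN G X s2 p2 f2)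
    (pp : PP G s p s2 p2) (n : NFp G X T s2 p2) : NFp G X (MT G X T s p f) s2 p2 := by
  have q' := mt_qt hX q hp tn
  have sw3 : ∀ {a b c d}, MT G X T s p f a b c d → MT G X T s p f a b d c := fun h => q'.swap₂ (q'.swap₁ (q'.swap₂ h))
  have hf := tn.f1
  obtain ⟨f1, f2', f3, f4⟩ := u1_of hf
  have hf2 := tn2.f1
  have nf : ∀ {x : V}, G.Adj x s → x ≠ f := fun h e => f4 (e ▸ h)
  have npf : ¬ Fc G X s p f p := fun h => h.1.1 rfl
  have nsf : ¬ Fc G X s p f s := fun h => h.1.2.ne rfl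
  -- (F0)
  have F0 : G.Adj p s2 → G.Adj p p2 → (Fc G X s p f s2 ↔ Fc G X s p f p2) := by
    intro a1 a2
    have ne1 : s2 ≠ f ∧ p2 ≠ f → (X s s2 p f ↔ X s p2 p f) := by
      rintro ⟨g1, g2⟩
      constructor
      · intro h
        rcases hX.add2 (hX.comm h) hp2.adj.ne pp.sp pp.pp g2.symm with k | k
        · exact absurd (hX.comm k) (hp2.cons _ _)
        · exact hX.comm k
      · intro h
        rcases hX.add2 (hX.comm h) hp2.adj.ne.symm pp.ss pp.ps g1.symm with k | k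
        · exact absurd (hX.swap (hX.comm k)) (hp2.cons _ _)
        · exact hX.comm k
    constructor
    · intro h
      have h1 : G.Adj p2 s := (hp2.sub (fun e => pp.sp e) h.1.2.symm).symm
      exact ⟨⟨pp.pp.symm, h1⟩, (ne1 ⟨nf h.1.2, nf h1⟩).1 h.2⟩
    · intro h
      have h1 : G.Adj s2 s := (pp.h4 h.1.2.symm a1).symm
      exact ⟨⟨pp.ps.symm, h1⟩, (ne1 ⟨nf h1, nf h.1.2⟩).2 h.2⟩
  -- (F1)
  have F1 : G.Adj p s2 → Fc G X s p f s2 → Fc G X s p f f2 := by
    intro a1 h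
    have h1 : G.Adj f2 s := (hp2.cl ⟨pp.sp, h.1.2.symm⟩ hf2).symm
    have h2 : f2 ≠ p := fun e => hf2.2.2 (e ▸ a1)
    refine ⟨⟨h2, h1⟩, ?_⟩
    by_contra k
    have e : s2 ≠ f2 := hf2.1.symm
    have := tn.cr h.1 ⟨h2, h1⟩ (ord1 hX hp hp.adj.ne pp.ss h1.ne.symm f1.symm pp.ps h2.symm f2'.symm e (nf h.1.2) (nf h1) h.2 k)
    exact hf2.2.2 this.symm
  -- (F2)
  have F2 : ∀ {x y}, G.Adj p s2 → Fc G X s p f s2 → U2 G s2 p2 x → U2 G s2 p2 y → ¬ Fc G X s p f x → (x = s ∨ x = p ∨ G.Adj x p) →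
      ¬ Fc G X s p f y → (y = s ∨ y = p ∨ G.Adj y p) → ¬ Sp G X s2 p2 x y := by
    intro x y a1 h ux uy hx hx' hy hy' k
    exact fc_out2 hX hp tn (F1 a1 h) h hx hx' hy hy' (hX.comm (sp_f hX tn2 ux uy k))
  have F2' : ∀ {b}, b ≠ s → b ≠ p → G.Adj p s2 → G.Adj s s2 → (Sp G X s2 p2 p b ↔ Sp G X s2 p2 s b) := by
    intro b b1 b2 a1 a2
    constructor
    · rintro ⟨c, hc, h⟩
      have c1 : c ≠ s := fun e => hc.2.2 (e ▸ a2)
      refine ⟨c, hc, ?_⟩
      rcases hX.add2 (hX.comm h) b1 hp.adj.ne.symm c1 pp.ss.symm with k | k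
      · exact hX.swap (hX.comm k)
      · exact absurd (hX.swap (hX.comm k)) (hp.cons _ _)
    · rintro ⟨c, hc, h⟩
      have c1 : c ≠ p := fun e => hc.2.2 (e ▸ a1)
      refine ⟨c, hc, ?_⟩
      rcases hX.add2 (hX.comm h) b2 hp.adj.ne c1 pp.ps.symm with k | k
      · exact hX.swap (hX.comm k)
      · exact absurd (hX.comm k) (hp.cons _ _)
  have F2'' : ∀ {b}, b ≠ s → b ≠ p → G.Adj p s2 → G.Adj s s2 → (Sp G X s2 p2 b p ↔ Sp G X s2 p2 b s) := by
    intro b b1 b2 a1 a2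
    constructor
    · rintro ⟨c, hc, h⟩
      obtain ⟨c', hc', h'⟩ := (F2' b1 b2 a1 a2).1 ⟨c, hc, hX.swap h⟩
      exact ⟨c', hc', hX.swap h'⟩
    · rintro ⟨c, hc, h⟩
      obtain ⟨c', hc', h'⟩ := (F2' b1 b2 a1 a2).2 ⟨c, hc, hX.swap h⟩
      exact ⟨c', hc', hX.swap h'⟩
  -- (F3)
  have F3 : ∀ {x y}, G.Adj p s2 → ¬ Fc G X s p f s2 → U2 G s2 p2 x → U2 G s2 p2 y → Fc G X s p f x → Fc G X s p f y →
      ¬ Sp G X s2 p2 x y := by
    intro x y a1 h ux uy hx hy k
    have k1 := sp_f hX tn2 ux uy k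
    have h1 : G.Adj p f2 := hp2.cl ⟨pp.pp, a1⟩ hf2
    have h2 : ¬ Fc G X s p f f2 := by
      intro g
      by_cases g1 : G.Adj s2 s
      · have g2 : ¬ X s s2 p f := fun g2 => h ⟨⟨pp.ps.symm, g1⟩, g2⟩
        have := tn.cr g.1 ⟨pp.ps.symm, g1⟩ (ord1 hX hp hp.adj.ne g.1.2.ne.symm pp.ss f1.symm g.1.1.symm pp.ps f2'.symm hf2.1 (nf g.1.2) (nf g1) g.2 g2)
        exact hf2.2.2 this
      · exact hf2.2.2 (hp.cl g.1 ⟨pp.ss.symm, a1.symm, g1⟩)
    exact fc_out2 hX hp tn hx hy h2 (Or.inr (Or.inr h1.symm)) h (Or.inr (Or.inr a1.symm)) k1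
  have sN : ∀ {x y z w : V}, x ≠ p → y ≠ p → z ≠ p → w ≠ p → (MT G X T s p f x y z w ↔ T x y z w) := fun h1 h2 h3 h4 => mt_no q h1 h2 h3 h4
  have rP : ∀ {x z w : V}, MT G X T s p f x p z w ↔ MT G X T s p f p x z w := ⟨fun h => q'.swap₁ h, fun h => q'.swap₁ h⟩
  have rP2 : ∀ {x z w : V}, MT G X T s p f x w p z ↔ MT G X T s p f p z x w := ⟨fun h => q'.swap₂ h, fun h => q'.swap₂ h⟩
  have rP3 : ∀ {x z w : V}, MT G X T s p f x w z p ↔ MT G X T s p f x w p z := ⟨fun h => sw3 h, fun h => sw3 h⟩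
  have aT : ∀ {x z w : V}, T x p z w ↔ T p x z w := ⟨fun h => q.swap₁ h, fun h => q.swap₁ h⟩
  have aT2 : ∀ {x z w : V}, T x w p z ↔ T p z x w := ⟨fun h => q.swap₂ h, fun h => q.swap₂ h⟩
  have t3 : ∀ {a b c d}, T a b c d ↔ T a b d c := ⟨fun h => q.swap₂ (q.swap₁ (q.swap₂ h)), fun h => q.swap₂ (q.swap₁ (q.swap₂ h))⟩
  -- (a), with `p`
  have A : ∀ {b}, K4 G s2 p2 p b → (MT G X T s p f s2 p2 p b ↔ ¬ Sp G X s2 p2 p b) := by
    intro b k
    obtain ⟨k1, k2, k3, k4, k5, k6⟩ := id k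
    have up : U2 G s2 p2 p := ⟨pp.pp, k2.symm⟩
    have ub : U2 G s2 p2 b := ⟨k5.ne.symm, k3.symm⟩
    rw [rP2]
    by_cases h : Fc G X s p f s2
    · have h' := (F0 k2.symm k4.symm).1 h
      by_cases hb : Fc G X s p f b
      · rw [mt_fff hX q hp tn hb h h' k1.ne, F2' hb.1.2.ne hb.1.1 k2.symm h.1.2.symm]
        have kk : K4 G s2 p2 s b := ⟨k1, h.1.2, k3, h'.1.2, k5, hb.1.2.symm⟩
        constructor
        · intro g g'
          exact n.a0 kk g' (q.swap₂ g)
        · intro g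
          exact q.swap₂ (n.a1 kk g)
      · constructor
        · intro _
          exact F2 k2.symm h up ub npf (Or.inr (Or.inl rfl)) hb (Or.inr (Or.inr k6.symm))
        · intro _
          exact mt_t hb k6.symm h h' k1.ne
    · have h' : ¬ Fc G X s p f p2 := fun g => h ((F0 k2.symm k4.symm).2 g)
      rw [mt_1 k6.ne.symm k2.ne k4.ne k1.ne h h']
      constructor
      · intro g g'
        exact n.a0 k g' (q.swap₂ g)
      · intro g
        exact q.swap₂ (n.a1 k g)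
  have A' : ∀ {a b}, K4 G s2 p2 a b → (MT G X T s p f s2 p2 a b ↔ ¬ Sp G X s2 p2 a b) := by
    intro a b k
    obtain ⟨k1, k2, k3, k4, k5, k6⟩ := id k
    by_cases e : a = p
    · subst e
      exact A k
    by_cases e' : b = p
    · subst e'
      rw [rP3, A ⟨k1, k3, k2, k5, k4, k6.symm⟩, not_iff_not]
      exact ⟨fun ⟨c, hc, h⟩ => ⟨c, hc, hX.swap h⟩, fun ⟨c, hc, h⟩ => ⟨c, hc, hX.swap h⟩⟩
    rw [sN pp.ps.symm pp.pp.symm e e']
    exact ⟨fun g g' => n.a0 k g' g, fun g => n.a1 k g⟩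
  refine ⟨fun k h => (A' k).2 h, fun k h g => (A' k).1 g h, ?_, ?_⟩
  · intro x y z k
    obtain ⟨k1, k2, k3, k4, k5, k6, k7, k8, k9, k10⟩ := id k
    -- the case `y = p`
    have By : ∀ {x z}, K5 G s2 p2 x p z → (MT G X T s p f s2 x p z ↔ MT G X T s p f p2 x p z) := by
      intro x z k
      obtain ⟨k1, k2, k3, k4, k5, k6, k7, k8, k9, k10⟩ := id k
      rw [rP2, rP2]
      by_cases h : Fc G X s p f s2
      · have h' := (F0 k3.symm k6.symm).1 h
        by_cases hx : Fc G X s p f x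
        · by_cases hz : Fc G X s p f z
          · rw [mt_fff hX q hp tn hz h hx k2.ne, mt_fff hX q hp tn hz h' hx k5.ne]
            have kk : K5 G s2 p2 x s z := ⟨k1, k2, h.1.2, k4, k5, h'.1.2, k7, hx.1.2, k9, hz.1.2.symm⟩
            have := n.b kk
            exact ⟨fun g => q.swap₂ (this.1 (q.swap₂ g)), fun g => q.swap₂ (this.2 (q.swap₂ g))⟩
          · exact ⟨fun _ => mt_t hz k10.symm h' hx k5.ne, fun _ => mt_t hz k10.symm h hx k2.ne⟩
        · by_cases hz : Fc G X s p f z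
          · exact ⟨fun g => absurd g (mt_f hz h hx k8 k2.ne), fun g => absurd g (mt_f hz h' hx k8 k5.ne)⟩
          · have e1 : ∀ {w}, w ≠ p → w ≠ x → (MT G X T s p f p z w x ↔ T p z w x) := fun h1 h2 => mt_1' k10.ne.symm h1 k8.ne h2 hz hx
            rw [e1 k3.ne k2.ne, e1 k6.ne k5.ne]
            have := n.b k
            exact ⟨fun g => q.swap₂ (this.1 (q.swap₂ g)), fun g => q.swap₂ (this.2 (q.swap₂ g))⟩
      · have h' : ¬ Fc G X s p f p2 := fun g => h ((F0 k3.symm k6.symm).2 g)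
        by_cases hx : Fc G X s p f x
        · by_cases hz : Fc G X s p f z
          · constructor
            · intro g
              exact absurd (sw3 g) (mt_f hz hx h k3 k2.ne.symm)
            · intro g
              exact absurd (sw3 g) (mt_f hz hx h' k6 k5.ne.symm)
          · have e1 : ∀ {w}, w ≠ p → w ≠ x → ¬ Fc G X s p f w → (MT G X T s p f p z w x ↔ T p z w x) :=
              fun h1 h2 h3 => mt_1'' k10.ne.symm h1 k8.ne h2 hz h3
            rw [e1 k3.ne k2.ne h, e1 k6.ne k5.ne h']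
            have := n.b k
            exact ⟨fun g => q.swap₂ (this.1 (q.swap₂ g)), fun g => q.swap₂ (this.2 (q.swap₂ g))⟩
        · have e1 : ∀ {w}, w ≠ p → w ≠ x → ¬ Fc G X s p f w → (MT G X T s p f p z w x ↔ T p z w x) :=
            fun h1 h2 h3 => mt_1 k10.ne.symm h1 k8.ne h2 h3 hx
          rw [e1 k3.ne k2.ne h, e1 k6.ne k5.ne h']
          have := n.b k
          exact ⟨fun g => q.swap₂ (this.1 (q.swap₂ g)), fun g => q.swap₂ (this.2 (q.swap₂ g))⟩
    by_cases ex : x = p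
    · subst ex
      rw [rP, rP]
      by_cases h : Fc G X s x f s2
      · have h' := (F0 k2.symm k5.symm).1 h
        by_cases hy : Fc G X s x f y
        · by_cases hz : Fc G X s x f z
          · rw [mt_fff hX q hp tn h hy hz k10.ne, mt_fff hX q hp tn h' hy hz k10.ne]
            have kk : K5 G s2 p2 s y z := ⟨k1, h.1.2, k3, k4, h'.1.2, k6, k7, hy.1.2.symm, hz.1.2.symm, k10⟩
            have := n.b kk
            exact ⟨fun g => q.swap₁ (this.1 (q.swap₁ g)), fun g => q.swap₁ (this.2 (q.swap₁ g))⟩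
          · exact ⟨fun g => absurd g (mt_f h hy hz k9.symm k10.ne), fun g => absurd g (mt_f h' hy hz k9.symm k10.ne)⟩
        · by_cases hz : Fc G X s x f z
          · exact ⟨fun g => absurd (sw3 g) (mt_f h hz hy k8.symm k10.ne.symm), fun g => absurd (sw3 g) (mt_f h' hz hy k8.symm k10.ne.symm)⟩
          · rw [mt_1 k2.ne k8.ne.symm k9.ne.symm k10.ne hy hz, mt_1 k5.ne k8.ne.symm k9.ne.symm k10.ne hy hz]
            have := n.b k
            exact ⟨fun g => q.swap₁ (this.1 (q.swap₁ g)), fun g => q.swap₁ (this.2 (q.swap₁ g))⟩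
      · have h' : ¬ Fc G X s x f p2 := fun g => h ((F0 k2.symm k5.symm).2 g)
        have := n.b k
        by_cases hy : Fc G X s x f y
        · by_cases hz : Fc G X s x f z
          · exact ⟨fun _ => mt_t h' k5 hy hz k10.ne, fun _ => mt_t h k2 hy hz k10.ne⟩
          · rw [mt_1' k2.ne k8.ne.symm k9.ne.symm k10.ne h hz, mt_1' k5.ne k8.ne.symm k9.ne.symm k10.ne h' hz]
            exact ⟨fun g => q.swap₁ (this.1 (q.swap₁ g)), fun g => q.swap₁ (this.2 (q.swap₁ g))⟩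
        · rw [mt_1'' k2.ne k8.ne.symm k9.ne.symm k10.ne h hy, mt_1'' k5.ne k8.ne.symm k9.ne.symm k10.ne h' hy]
          exact ⟨fun g => q.swap₁ (this.1 (q.swap₁ g)), fun g => q.swap₁ (this.2 (q.swap₁ g))⟩
    by_cases ey : y = p
    · subst ey
      exact By k
    by_cases ez : z = p
    · subst ez
      rw [rP3, rP3]
      exact By ⟨k1, k2, k4, k3, k5, k7, k6, k9, k8, k10.symm⟩
    rw [sN pp.ps.symm ex ey ez, sN pp.pp.symm ex ey ez]
    exact n.b k
  · -- (c)
    have Cy : ∀ {x z}, K5 G s2 p2 x p z → Sp G X s2 p2 x p → Sp G X s2 p2 x z → MT G X T s p f s2 x p z := by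
      intro x z k w1 w2
      obtain ⟨k1, k2, k3, k4, k5, k6, k7, k8, k9, k10⟩ := id k
      have up : U2 G s2 p2 p := ⟨pp.pp, k3.symm⟩
      have ux : U2 G s2 p2 x := ⟨k5.ne.symm, k2.symm⟩
      have uz : U2 G s2 p2 z := ⟨k7.ne.symm, k4.symm⟩
      rw [rP2]
      by_cases h : Fc G X s p f s2
      · by_cases hx : Fc G X s p f x
        · by_cases hz : Fc G X s p f z
          · rw [mt_fff hX q hp tn hz h hx k2.ne]
            have h' := (F0 k3.symm k6.symm).1 h
            have kk : K5 G s2 p2 x s z := ⟨k1, k2, h.1.2, k4, k5, h'.1.2, k7, hx.1.2, k9, hz.1.2.symm⟩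
            exact q.swap₂ (n.c kk ((F2'' hx.1.2.ne hx.1.1 k3.symm h.1.2.symm).1 w1) w2)
          · exact mt_t hz k10.symm h hx k2.ne
        · exact absurd w1 (F2 k3.symm h ux up hx (Or.inr (Or.inr k8)) npf (Or.inr (Or.inl rfl)))
      · have := n.c k w1 w2
        by_cases hx : Fc G X s p f x
        · by_cases hz : Fc G X s p f z
          · exact absurd w2 (F3 k3.symm h ux uz hx hz)
          · rw [mt_1'' k10.ne.symm k3.ne k8.ne k2.ne hz h]
            exact q.swap₂ this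
        · rw [mt_1 k10.ne.symm k3.ne k8.ne k2.ne h hx]
          exact q.swap₂ this
    intro x y z k w1 w2
    obtain ⟨k1, k2, k3, k4, k5, k6, k7, k8, k9, k10⟩ := id k
    by_cases ex : x = p
    · subst ex
      have up : U2 G s2 p2 x := ⟨pp.pp, k2.symm⟩
      have uy : U2 G s2 p2 y := ⟨k6.ne.symm, k3.symm⟩
      have uz : U2 G s2 p2 z := ⟨k7.ne.symm, k4.symm⟩
      rw [rP]
      by_cases h : Fc G X s x f s2
      · by_cases hy : Fc G X s x f y
        · by_cases hz : Fc G X s x f z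
          · rw [mt_fff hX q hp tn h hy hz k10.ne]
            have h' := (F0 k2.symm k5.symm).1 h
            have kk : K5 G s2 p2 s y z := ⟨k1, h.1.2, k3, k4, h'.1.2, k6, k7, hy.1.2.symm, hz.1.2.symm, k10⟩
            exact q.swap₁ (n.c kk ((F2' hy.1.2.ne hy.1.1 k2.symm h.1.2.symm).1 w1) ((F2' hz.1.2.ne hz.1.1 k2.symm h.1.2.symm).1 w2))
          · exact absurd w2 (F2 k2.symm h up uz npf (Or.inr (Or.inl rfl)) hz (Or.inr (Or.inr k9.symm)))
        · exact absurd w1 (F2 k2.symm h up uy npf (Or.inr (Or.inl rfl)) hy (Or.inr (Or.inr k8.symm)))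
      · have := n.c k w1 w2
        by_cases hy : Fc G X s x f y
        · by_cases hz : Fc G X s x f z
          · exact mt_t h k2 hy hz k10.ne
          · rw [mt_1' k2.ne k8.ne.symm k9.ne.symm k10.ne h hz]
            exact q.swap₁ this
        · rw [mt_1'' k2.ne k8.ne.symm k9.ne.symm k10.ne h hy]
          exact q.swap₁ this
    by_cases ey : y = p
    · subst ey
      exact Cy k w1 w2
    by_cases ez : z = p
    · subst ez
      rw [rP3]
      exact Cy ⟨k1, k2, k4, k3, k5, k7, k6, k9, k8, k10.symm⟩ w2 w1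
    rw [sN pp.ps.symm ex ey ez]
    exact n.c k w1 w2

end Pool.Agent.SOJ
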