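import Pool.Agent.SOJ.Th

/-! Project SOJ: normal form, refutations (generated). -/

set_option autoImplicit false
set_option maxRecDepth 100000
set_option linter.unusedVariables false

namespace Pool.Agent.SOJ

open Pool.Agent.SOC Pool.Agent.SOD Pool.Agent.RUP Pool.Agent.SOF Pool.Agent.SOG

/-- templates -/
def na1_x : List Tm := [
  ⟨2, [], [(0, 1)], [.q false 0 8 9 0 1]⟩,
  ⟨0, [], [], [.b true 0 8 9]⟩,
  ⟨0, [], [], [.b true 0 8 10]⟩,
  ⟨0, [], [], [.b true 0 8 11]⟩,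
  ⟨0, [], [], [.b true 0 9 10]⟩,
  ⟨0, [], [], [.b true 0 9 11]⟩,
  ⟨0, [], [], [.b true 0 10 11]⟩,
  ⟨0, [], [], [.b true 0 12 9]⟩,
  ⟨0, [], [], [.b false 0 12 8]⟩,
  ⟨0, [], [], [.b true 0 10 12]⟩,
  ⟨0, [], [], [.b true 0 11 12]⟩,
  ⟨0, [], [], [.q false 0 8 10 9 12, .q false 0 8 11 9 12, .q true 1 8 9 10 11]⟩,
  ⟨0, [], [], [.q false 0 10 11 12 8]⟩,
  ⟨0, [], [], [.q false 1 8 9 10 11]⟩]

def na1_p0 : List Nat := [
0x4862007000006417000008417020c000301,
0x6840090000000270211000201,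
0x48600900000002701fd000201,
0x82640700000641700000002f01e8000301,
0x2d00862400700284600700064200100086400100046200f00240860700082641300086420b00000003100000641700000002f00000001d00000001f0000000020000000040213001001,
0x280641100086400f00086420f00086400100086420100240860700000003100000001d00000002900000000400000002100000000a00000002f00000000800000000200f0000f01,
0x42860700000000200000000c00ee000301,
0x84600f00000000600000002b00000001b00000000e00b1000501,
0x280641100000003100000001001e9000301,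
0x84620f00000000c00000002b00000001f00000001200dd000501,
0x80264130000000060000000140187000301,
0x204861300000001000000001400af000301,
0x64200f00000003100000002100000001b0000000160192000501,
0x62800b00000001801d0000201,
0x286400700000000e00000001a00bc000301,
0x86200100000000200000001c00c2000301,
0x2d00000003100000001e000000020000400]

def na1_pf : List Nat := na1_p0

theorem na1_ref {V : Type} {S : SRel V} {p : Nat → V} (hp : ∀ i j, i < 5 → j < 5 → p i = p j → i = j)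
    (hts : PHs S p 5 (oO ++ (oQ ++ na1_x))) : False :=
  refuteS (k := 5) (n2 := 1) (n3 := 1) (n4 := 2) (o3 := 15) (o4 := 50) (M := 290) (oO ++ (oQ ++ na1_x)) na1_pf (by decide +kernel)
    (by decide +kernel) (by decide +kernel) (by decide +kernel) hp hts

theorem na1 {V : Type} {G : SimpleGraph V} {X T : V → V → V → V → Prop} (h : Sepr X) (q : QT G X T)
    {s p a b f : V} (nd : [s, p, a, b, f].Nodup) (hc : ∀ c d, ¬ X s p c d) (k : K4 G s p a b)
    (f1 : G.Adj f p) (f2 : ¬ G.Adj f s) (fa : G.Adj a f) (fb : G.Adj b f) (n2 : X s a p f → X s b p f → T s p a b)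
    (g1 : ¬ X a b f s) (g2 : ¬ T s p a b) : False := by
  refine na1_ref (p := pt [s, p, a, b, f] s) (S := (oY h q).rel) (pt_inj nd rfl) ?_
  refine ((oO_h (Y := oY h q) h).phs _ _).app (((oQ_h (Y := oY h q) q).phs _ _).app ?_)
  exact (.cons (fun d hd n01 h0 => hc _ _ h0) (.cons (fun d hd h0 => h0 k.1) (.cons (fun d hd h0 => h0 k.2.1) (.cons (fun d hd h0 => h0 k.2.2.1) (.cons (fun d hd h0 => h0 k.2.2.2.1) (.cons (fun d hd h0 => h0 k.2.2.2.2.1) (.cons (fun d hd h0 => h0 k.2.2.2.2.2) (.cons (fun d hd h0 => h0 f1) (.cons (fun d hd h0 => f2 h0) (.cons (fun d hd h0 => h0 fa) (.cons (fun d hd h0 => h0 fb) (.cons (fun d hd h0 h1 h2 => h2 (n2 h0 h1)) (.cons (fun d hd h0 => g1 h0) (.cons (fun d hd h0 => g2 h0) .nil))))))))))))))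

/-- templates -/
def na0_x : List Tm := [
  ⟨2, [], [(0, 1)], [.q false 0 8 9 0 1]⟩,
  ⟨0, [], [], [.b true 0 8 9]⟩,
  ⟨0, [], [], [.b true 0 8 10]⟩,
  ⟨0, [], [], [.b true 0 8 11]⟩,
  ⟨0, [], [], [.b true 0 9 10]⟩,
  ⟨0, [], [], [.b true 0 9 11]⟩,
  ⟨0, [], [], [.b true 0 10 11]⟩,
  ⟨0, [], [], [.b true 0 12 9]⟩,
  ⟨0, [], [], [.b false 0 12 8]⟩,
  ⟨0, [], [], [.b true 0 10 12]⟩,
  ⟨0, [], [], [.b true 0 11 12]⟩,
  ⟨0, [], [], [.q false 0 8 10 9 12, .q false 0 8 11 9 12, .q true 1 8 9 10 11]⟩,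
  ⟨0, [], [], [.q true 0 10 11 12 8]⟩,
  ⟨0, [], [], [.q true 1 8 9 10 11]⟩]

def na0_p0 : List Nat := [
0x48200900000002701f3000201,
0x682009000000027020d000201,
0x280640700000641700000002f00c6000301,
0x86421300000000200000003101ff000301,
0x8462130000000040000000310213000301,
0x68420f00000000600000002500000002300000000a000000008000600]

def na0_pf : List Nat := na0_p0

theorem na0_ref {V : Type} {S : SRel V} {p : Nat → V} (hp : ∀ i j, i < 5 → j < 5 → p i = p j → i = j)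
    (hts : PHs S p 5 (oO ++ (oQ ++ na0_x))) : False :=
  refuteS (k := 5) (n2 := 1) (n3 := 1) (n4 := 2) (o3 := 15) (o4 := 50) (M := 290) (oO ++ (oQ ++ na0_x)) na0_pf (by decide +kernel)
    (by decide +kernel) (by decide +kernel) (by decide +kernel) hp hts

theorem na0 {V : Type} {G : SimpleGraph V} {X T : V → V → V → V → Prop} (h : Sepr X) (q : QT G X T)
    {s p a b f : V} (nd : [s, p, a, b, f].Nodup) (hc : ∀ c d, ¬ X s p c d) (k : K4 G s p a b)
    (f1 : G.Adj f p) (f2 : ¬ G.Adj f s) (fa : G.Adj a f) (fb : G.Adj b f) (n2 : X s a p f → X s b p f → T s p a b)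
    (g1 : X a b f s) (g2 : T s p a b) : False := by
  refine na0_ref (p := pt [s, p, a, b, f] s) (S := (oY h q).rel) (pt_inj nd rfl) ?_
  refine ((oO_h (Y := oY h q) h).phs _ _).app (((oQ_h (Y := oY h q) q).phs _ _).app ?_)
  exact (.cons (fun d hd n01 h0 => hc _ _ h0) (.cons (fun d hd h0 => h0 k.1) (.cons (fun d hd h0 => h0 k.2.1) (.cons (fun d hd h0 => h0 k.2.2.1) (.cons (fun d hd h0 => h0 k.2.2.2.1) (.cons (fun d hd h0 => h0 k.2.2.2.2.1) (.cons (fun d hd h0 => h0 k.2.2.2.2.2) (.cons (fun d hd h0 => h0 f1) (.cons (fun d hd h0 => f2 h0) (.cons (fun d hd h0 => h0 fa) (.cons (fun d hd h0 => h0 fb) (.cons (fun d hd h0 h1 h2 => h2 (n2 h0 h1)) (.cons (fun d hd h0 => h0 g1) (.cons (fun d hd h0 => h0 g2) .nil))))))))))))))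

/-- templates -/
def nb1_x : List Tm := [
  ⟨2, [], [(0, 1)], [.q false 0 8 9 0 1]⟩,
  ⟨0, [], [], [.b true 0 8 9]⟩,
  ⟨0, [], [], [.b true 0 8 10]⟩,
  ⟨0, [], [], [.b true 0 8 11]⟩,
  ⟨0, [], [], [.b true 0 8 12]⟩,
  ⟨0, [], [], [.b true 0 9 10]⟩,
  ⟨0, [], [], [.b true 0 9 11]⟩,
  ⟨0, [], [], [.b true 0 9 12]⟩,
  ⟨0, [], [], [.b true 0 10 11]⟩,
  ⟨0, [], [], [.b true 0 10 12]⟩,
  ⟨0, [], [], [.b true 0 11 12]⟩,
  ⟨0, [], [], [.b true 0 13 9]⟩,
  ⟨0, [], [], [.b false 0 13 8]⟩,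
  ⟨0, [], [], [.b true 0 10 13]⟩,
  ⟨0, [], [], [.b true 0 11 13]⟩,
  ⟨0, [], [], [.b true 0 12 13]⟩,
  ⟨0, [], [], [.q false 0 8 10 9 13, .q false 0 8 11 9 13, .q true 1 8 9 10 11]⟩,
  ⟨0, [], [], [.q false 0 8 10 9 13, .q false 0 8 12 9 13, .q true 1 8 9 10 12]⟩,
  ⟨0, [], [], [.q false 0 8 11 9 13, .q false 0 8 12 9 13, .q true 1 8 9 11 12]⟩,
  ⟨0, [], [], [.q false 0 8 10 9 13, .q false 0 8 11 9 13, .q false 0 8 12 9 13, .q false 1 9 10 11 12, .q true 1 8 10 11 12]⟩,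
  ⟨0, [], [], [.q false 0 8 10 9 13, .q false 0 8 11 9 13, .q false 0 8 12 9 13, .q true 1 9 10 11 12, .q false 1 8 10 11 12]⟩,
  ⟨0, [], [], [.q false 0 8 10 9 13, .q false 0 8 11 9 13, .q false 0 8 12 9 13, .q false 1 9 11 10 12, .q true 1 8 11 10 12]⟩,
  ⟨0, [], [], [.q false 0 8 10 9 13, .q false 0 8 11 9 13, .q false 0 8 12 9 13, .q true 1 9 11 10 12, .q false 1 8 11 10 12]⟩,
  ⟨0, [], [], [.q false 0 8 10 9 13, .q false 0 8 11 9 13, .q false 0 8 12 9 13, .q false 1 9 12 10 11, .q true 1 8 12 10 11]⟩,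
  ⟨0, [], [], [.q false 0 8 10 9 13, .q false 0 8 11 9 13, .q false 0 8 12 9 13, .q true 1 9 12 10 11, .q false 1 8 12 10 11]⟩,
  ⟨0, [], [], [.q true 1 8 10 11 12]⟩,
  ⟨0, [], [], [.q false 1 9 10 11 12]⟩]

def nb1_p0 : List Nat := [
0x2a400900000002f037f000201,
0x6a400900000002f03c5000201,
0x8a400900000002f03eb000201,
0x402861100000004900000004b0321000301,
0x280641300000004900000004b029b000301,
0x260841300000004900000004b02df000301,
0xa280641500000000400000004900000004b03c7000401,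
0xa260841500000000600000004900000004b03ed000401,
0x284601300000004900000000802b3000301,
0x26480130000000490000000080307000301,
0x64200f00000001200000002300000001b00000000a02a6000501,
0x84200f00000001400000002500000001b00000000c02f2000501,
0x642001000006417000000016007f000301,
0x84200100000841700000001800c3000301,
0x46200f00000001200000002100000001d00000001a008c000501,
0x48200f00000001400000002100000001f00000001c00d8000501,
0xa06421300000000200000001e0389000301,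
0xa0842130000000020000000200391000301,
0xa6420f00000000e00000003100000002300000002203a8000501,
0xa8420f00000001000000003100000002500000002403b0000501,
0x260a40700000a41700000002603a6000301,
0x280a40700000a41700000002803ae000301,
0xa42600700000001a00000002a0169000301,
0xa42800700000001c00000002c0171000301,
0x3b00000000800000002e000000030000400]

def nb1_pf : List Nat := nb1_p0

theorem nb1_ref {V : Type} {S : SRel V} {p : Nat → V} (hp : ∀ i j, i < 6 → j < 6 → p i = p j → i = j)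
    (hts : PHs S p 6 (oO ++ (oQ ++ nb1_x))) : False :=
  refuteS (k := 6) (n2 := 1) (n3 := 1) (n4 := 2) (o3 := 21) (o4 := 77) (M := 539) (oO ++ (oQ ++ nb1_x)) nb1_pf (by decide +kernel)
    (by decide +kernel) (by decide +kernel) (by decide +kernel) hp hts

theorem nb1 {V : Type} {G : SimpleGraph V} {X T : V → V → V → V → Prop} (h : Sepr X) (q : QT G X T)
    {s p a b c f : V} (nd : [s, p, a, b, c, f].Nodup) (hc : ∀ c d, ¬ X s p c d) (k : K5 G s p a b c)
    (f1 : G.Adj f p) (f2 : ¬ G.Adj f s) (fa : G.Adj a f) (fb : G.Adj b f) (fc : G.Adj c f) (n2 : X s a p f → X s b p f → T s p a b)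
    (n3 : X s a p f → X s c p f → T s p a c) (n4 : X s b p f → X s c p f → T s p b c)
    (m1 : X s a p f → X s b p f → X s c p f → (T p a b c ↔ T s a b c))
    (m2 : X s a p f → X s b p f → X s c p f → (T p b a c ↔ T s b a c))
    (m3 : X s a p f → X s b p f → X s c p f → (T p c a b ↔ T s c a b))
    (g1 : T s a b c) (g2 : ¬ T p a b c) : False := by
  refine nb1_ref (p := pt [s, p, a, b, c, f] s) (S := (oY h q).rel) (pt_inj nd rfl) ?_
  refine ((oO_h (Y := oY h q) h).phs _ _).app (((oQ_h (Y := oY h q) q).phs _ _).app ?_)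
  exact (.cons (fun d hd n01 h0 => hc _ _ h0) (.cons (fun d hd h0 => h0 k.1) (.cons (fun d hd h0 => h0 k.2.1) (.cons (fun d hd h0 => h0 k.2.2.1) (.cons (fun d hd h0 => h0 k.2.2.2.1) (.cons (fun d hd h0 => h0 k.2.2.2.2.1) (.cons (fun d hd h0 => h0 k.2.2.2.2.2.1) (.cons (fun d hd h0 => h0 k.2.2.2.2.2.2.1) (.cons (fun d hd h0 => h0 k.2.2.2.2.2.2.2.1) (.cons (fun d hd h0 => h0 k.2.2.2.2.2.2.2.2.1) (.cons (fun d hd h0 => h0 k.2.2.2.2.2.2.2.2.2) (.cons (fun d hd h0 => h0 f1) (.cons (fun d hd h0 => f2 h0) (.cons (fun d hd h0 => h0 fa) (.cons (fun d hd h0 => h0 fb) (.cons (fun d hd h0 => h0 fc) (.cons (fun d hd h0 h1 h2 => h2 (n2 h0 h1)) (.cons (fun d hd h0 h1 h2 => h2 (n3 h0 h1)) (.cons (fun d hd h0 h1 h2 => h2 (n4 h0 h1)) (.cons (fun d hd h0 h1 h2 h3 h4 => h4 ((m1 h0 h1 h2).1 h3)) (.cons (fun d hd h0 h1 h2 h3 h4 => h3 ((m1 h0 h1 h2).2 h4)) (.cons (fun d hd h0 h1 h2 h3 h4 => h4 ((m2 h0 h1 h2).1 h3)) (.cons (fun d hd h0 h1 h2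 h3 h4 => h3 ((m2 h0 h1 h2).2 h4)) (.cons (fun d hd h0 h1 h2 h3 h4 => h4 ((m3 h0 h1 h2).1 h3)) (.cons (fun d hd h0 h1 h2 h3 h4 => h3 ((m3 h0 h1 h2).2 h4)) (.cons (fun d hd h0 => h0 g1) (.cons (fun d hd h0 => g2 h0) .nil)))))))))))))))))))))))))))

/-- templates -/
def nb2_x : List Tm := [
  ⟨2, [], [(0, 1)], [.q false 0 8 9 0 1]⟩,
  ⟨0, [], [], [.b true 0 8 9]⟩,
  ⟨0, [], [], [.b true 0 8 10]⟩,
  ⟨0, [], [], [.b true 0 8 11]⟩,
  ⟨0, [], [], [.b true 0 8 12]⟩,
  ⟨0, [], [], [.b true 0 9 10]⟩,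
  ⟨0, [], [], [.b true 0 9 11]⟩,
  ⟨0, [], [], [.b true 0 9 12]⟩,
  ⟨0, [], [], [.b true 0 10 11]⟩,
  ⟨0, [], [], [.b true 0 10 12]⟩,
  ⟨0, [], [], [.b true 0 11 12]⟩,
  ⟨0, [], [], [.b true 0 13 9]⟩,
  ⟨0, [], [], [.b false 0 13 8]⟩,
  ⟨0, [], [], [.b true 0 10 13]⟩,
  ⟨0, [], [], [.b true 0 11 13]⟩,
  ⟨0, [], [], [.b true 0 12 13]⟩,
  ⟨0, [], [], [.q false 0 8 10 9 13, .q false 0 8 11 9 13, .q true 1 8 9 10 11]⟩,
  ⟨0, [], [], [.q false 0 8 10 9 13, .q false 0 8 12 9 13, .q true 1 8 9 10 12]⟩,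
  ⟨0, [], [], [.q false 0 8 11 9 13, .q false 0 8 12 9 13, .q true 1 8 9 11 12]⟩,
  ⟨0, [], [], [.q false 0 8 10 9 13, .q false 0 8 11 9 13, .q false 0 8 12 9 13, .q false 1 9 10 11 12, .q true 1 8 10 11 12]⟩,
  ⟨0, [], [], [.q false 0 8 10 9 13, .q false 0 8 11 9 13, .q false 0 8 12 9 13, .q true 1 9 10 11 12, .q false 1 8 10 11 12]⟩,
  ⟨0, [], [], [.q false 0 8 10 9 13, .q false 0 8 11 9 13, .q false 0 8 12 9 13, .q false 1 9 11 10 12, .q true 1 8 11 10 12]⟩,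
  ⟨0, [], [], [.q false 0 8 10 9 13, .q false 0 8 11 9 13, .q false 0 8 12 9 13, .q true 1 9 11 10 12, .q false 1 8 11 10 12]⟩,
  ⟨0, [], [], [.q false 0 8 10 9 13, .q false 0 8 11 9 13, .q false 0 8 12 9 13, .q false 1 9 12 10 11, .q true 1 8 12 10 11]⟩,
  ⟨0, [], [], [.q false 0 8 10 9 13, .q false 0 8 11 9 13, .q false 0 8 12 9 13, .q true 1 9 12 10 11, .q false 1 8 12 10 11]⟩,
  ⟨0, [], [], [.q true 1 9 10 11 12]⟩,
  ⟨0, [], [], [.q false 1 8 10 11 12]⟩]

def nb2_p0 : List Nat := [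
0x48620070000064170000084170320000301,
0x4a6200700000641700000a41703c0000301,
0x4a8200700000841700000a41703e6000301,
0x2a600900000002f0385000201,
0x4a600900000002f03a7000201,
0x8a600900000002f03f1000201,
0x2a800900000002f038d000201,
0x4a800900000002f03af000201,
0x6a800900000002f03d3000201,
0x420861100000004900000004b0321000301,
0x82641300000004900000004b02a7000301,
0x62841300000004900000004b02f3000301,
0x84621300000004900000001402b3000301,
0x6482130000000490000000140307000301,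
0x46200f00000001a00000002100000001d000000016029a000501,
0x48200f00000001c00000002100000001f00000001802de000501,
0x64200100000641700000001e008b000301,
0x84200100000841700000002000d7000301,
0x64200f00000001a00000002300000001b0000000220080000501,
0x84200f00000001c00000002500000001b00000002400c4000501,
0xa0462130000000080000000260389000301,
0xa02641300000000a00000002603a9000301,
0xa04821300000000e0000000280391000301,
0xa02841300000001000000002803b1000301,
0xa4620f00000002c00000003300000002100000002a03c6000501,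
0xa4820f00000003000000003500000002100000002e03ec000501,
0x240a60700000000400000003203c4000301,
0x6a0420700000001e0000000320360000301,
0x240a80700000000600000003403ea000301,
0xa6240070000000220000000360163000301,
0x3700000001a00000003c0384000301,
0x3900000001c00000003c038c000301,
0xa6200100000000400000003e014b000301,
0x640a20700000003c00000003e016d000301,
0x86a20700000004000000003e0392000301,
0xa820010000000060000000400153000301,
0x462a007000000038000000042014d000301,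
0x62a00b0000000420367000201,
0x2a086070000000020000000460372000301,
0x482a0070000000380000000480155000301,
0x84a00b0000000500371000201,
0xa468013000a8600f00068400f000a86001008a0640700460a80700000005200000001f00000003300000000c00000002700000004b00000004e00000004a00000003a01d9000f01,
0xa82640500000004400000005402fc000301,
0x64a80700000003a00000005401d5000301,
0x640820700000002400000005600dd000301,
0xa6800f00000001200000003500000001d0000000580158000501,
0x86200f00000001400000002500000001d00000005a00ca000501,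
0xa28601300000004c00000005e00000005c000400]

def nb2_pf : List Nat := nb2_p0

theorem nb2_ref {V : Type} {S : SRel V} {p : Nat → V} (hp : ∀ i j, i < 6 → j < 6 → p i = p j → i = j)
    (hts : PHs S p 6 (oO ++ (oQ ++ nb2_x))) : False :=
  refuteS (k := 6) (n2 := 1) (n3 := 1) (n4 := 2) (o3 := 21) (o4 := 77) (M := 539) (oO ++ (oQ ++ nb2_x)) nb2_pf (by decide +kernel)
    (by decide +kernel) (by decide +kernel) (by decide +kernel) hp hts

theorem nb2 {V : Type} {G : SimpleGraph V} {X T : V → V → V → V → Prop} (h : Sepr X) (q : QT G X T)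
    {s p a b c f : V} (nd : [s, p, a, b, c, f].Nodup) (hc : ∀ c d, ¬ X s p c d) (k : K5 G s p a b c)
    (f1 : G.Adj f p) (f2 : ¬ G.Adj f s) (fa : G.Adj a f) (fb : G.Adj b f) (fc : G.Adj c f) (n2 : X s a p f → X s b p f → T s p a b)
    (n3 : X s a p f → X s c p f → T s p a c) (n4 : X s b p f → X s c p f → T s p b c)
    (m1 : X s a p f → X s b p f → X s c p f → (T p a b c ↔ T s a b c))
    (m2 : X s a p f → X s b p f → X s c p f → (T p b a c ↔ T s b a c))
    (m3 : X s a p f → X s b p f → X s c p f → (T p c a b ↔ T s c a b))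
    (g1 : T p a b c) (g2 : ¬ T s a b c) : False := by
  refine nb2_ref (p := pt [s, p, a, b, c, f] s) (S := (oY h q).rel) (pt_inj nd rfl) ?_
  refine ((oO_h (Y := oY h q) h).phs _ _).app (((oQ_h (Y := oY h q) q).phs _ _).app ?_)
  exact (.cons (fun d hd n01 h0 => hc _ _ h0) (.cons (fun d hd h0 => h0 k.1) (.cons (fun d hd h0 => h0 k.2.1) (.cons (fun d hd h0 => h0 k.2.2.1) (.cons (fun d hd h0 => h0 k.2.2.2.1) (.cons (fun d hd h0 => h0 k.2.2.2.2.1) (.cons (fun d hd h0 => h0 k.2.2.2.2.2.1) (.cons (fun d hd h0 => h0 k.2.2.2.2.2.2.1) (.cons (fun d hd h0 => h0 k.2.2.2.2.2.2.2.1) (.cons (fun d hd h0 => h0 k.2.2.2.2.2.2.2.2.1) (.cons (fun d hd h0 => h0 k.2.2.2.2.2.2.2.2.2) (.cons (fun d hd h0 => h0 f1) (.cons (fun d hd h0 => f2 h0) (.cons (fun d hd h0 => h0 fa) (.cons (fun d hd h0 => h0 fb) (.cons (fun d hd h0 => h0 fc) (.cons (fun d hd h0 h1 h2 => h2 (n2 h0 h1)) (.cons (fun d hd h0 h1 h2 => h2 (n3 h0 h1)) (.cons (fun d hd h0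 h1 h2 => h2 (n4 h0 h1)) (.cons (fun d hd h0 h1 h2 h3 h4 => h4 ((m1 h0 h1 h2).1 h3)) (.cons (fun d hd h0 h1 h2 h3 h4 => h3 ((m1 h0 h1 h2).2 h4)) (.cons (fun d hd h0 h1 h2 h3 h4 => h4 ((m2 h0 h1 h2).1 h3)) (.cons (fun d hd h0 h1 h2 h3 h4 => h3 ((m2 h0 h1 h2).2 h4)) (.cons (fun d hd h0 h1 h2 h3 h4 => h4 ((m3 h0 h1 h2).1 h3)) (.cons (fun d hd h0 h1 h2 h3 h4 => h3 ((m3 h0 h1 h2).2 h4)) (.cons (fun d hd h0 => h0 g1) (.cons (fun d hd h0 => g2 h0) .nil)))))))))))))))))))))))))))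

/-- templates -/
def nc1_x : List Tm := [
  ⟨2, [], [(0, 1)], [.q false 0 8 9 0 1]⟩,
  ⟨0, [], [], [.b true 0 8 9]⟩,
  ⟨0, [], [], [.b true 0 8 10]⟩,
  ⟨0, [], [], [.b true 0 8 11]⟩,
  ⟨0, [], [], [.b true 0 8 12]⟩,
  ⟨0, [], [], [.b true 0 9 10]⟩,
  ⟨0, [], [], [.b true 0 9 11]⟩,
  ⟨0, [], [], [.b true 0 9 12]⟩,
  ⟨0, [], [], [.b true 0 10 11]⟩,
  ⟨0, [], [], [.b true 0 10 12]⟩,
  ⟨0, [], [], [.b true 0 11 12]⟩,
  ⟨0, [], [], [.b true 0 13 9]⟩,
  ⟨0, [], [], [.b false 0 13 8]⟩,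
  ⟨0, [], [], [.b true 0 10 13]⟩,
  ⟨0, [], [], [.b true 0 11 13]⟩,
  ⟨0, [], [], [.b true 0 12 13]⟩,
  ⟨0, [], [], [.q false 0 8 10 9 13, .q false 0 8 11 9 13, .q true 1 8 9 10 11]⟩,
  ⟨0, [], [], [.q false 0 8 10 9 13, .q false 0 8 12 9 13, .q true 1 8 9 10 12]⟩,
  ⟨0, [], [], [.q false 0 8 11 9 13, .q false 0 8 12 9 13, .q true 1 8 9 11 12]⟩,
  ⟨0, [], [], [.q false 0 8 10 9 13, .q false 0 8 11 9 13, .q false 0 8 12 9 13, .q false 1 9 10 11 12, .q true 1 8 10 11 12]⟩,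
  ⟨0, [], [], [.q false 0 8 10 9 13, .q false 0 8 11 9 13, .q false 0 8 12 9 13, .q true 1 9 10 11 12, .q false 1 8 10 11 12]⟩,
  ⟨0, [], [], [.q false 0 8 10 9 13, .q false 0 8 11 9 13, .q false 0 8 12 9 13, .q false 1 9 11 10 12, .q true 1 8 11 10 12]⟩,
  ⟨0, [], [], [.q false 0 8 10 9 13, .q false 0 8 11 9 13, .q false 0 8 12 9 13, .q true 1 9 11 10 12, .q false 1 8 11 10 12]⟩,
  ⟨0, [], [], [.q false 0 8 10 9 13, .q false 0 8 11 9 13, .q false 0 8 12 9 13, .q false 1 9 12 10 11, .q true 1 8 12 10 11]⟩,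
  ⟨0, [], [], [.q false 0 8 10 9 13, .q false 0 8 11 9 13, .q false 0 8 12 9 13, .q true 1 9 12 10 11, .q false 1 8 12 10 11]⟩,
  ⟨0, [], [], [.q true 0 10 11 13 8]⟩,
  ⟨0, [], [], [.q true 0 10 12 13 8]⟩,
  ⟨0, [], [], [.q false 1 8 10 11 12]⟩]

def nc1_p0 : List Nat := [
0x8a600900000002f03f1000201,
0x6a800900000002f03d3000201,
0x6a400300000004903c4000201,
0x4a600300000004903a6000201,
0x64a00b0000000490369000201,
0x8a400300000004b03ea000201,
0x4a800300000004b03ae000201,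
0x84a00b00000004b0371000201,
0xa86400700000000600000000c0324000301,
0xa468013000a8600f00068400f00a64800700000001000000001f00000003300000000200000002700000004d00000000e02e6000b01,
0x86400100000001200000001400f5000301,
0xa84600700000000800000001601d5000301,
0x86400f00000004d00000002900000001d00000001600cc000501,
0xa6800f00000000400000003500000001d0000000180158000501,
0xa48601300000000a00000001a00000001c000400]

def nc1_pf : List Nat := nc1_p0

theorem nc1_ref {V : Type} {S : SRel V} {p : Nat → V} (hp : ∀ i j, i < 6 → j < 6 → p i = p j → i = j)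
    (hts : PHs S p 6 (oO ++ (oQ ++ nc1_x))) : False :=
  refuteS (k := 6) (n2 := 1) (n3 := 1) (n4 := 2) (o3 := 21) (o4 := 77) (M := 539) (oO ++ (oQ ++ nc1_x)) nc1_pf (by decide +kernel)
    (by decide +kernel) (by decide +kernel) (by decide +kernel) hp hts

theorem nc1 {V : Type} {G : SimpleGraph V} {X T : V → V → V → V → Prop} (h : Sepr X) (q : QT G X T)
    {s p a b c f : V} (nd : [s, p, a, b, c, f].Nodup) (hc : ∀ c d, ¬ X s p c d) (k : K5 G s p a b c)
    (f1 : G.Adj f p) (f2 : ¬ G.Adj f s) (fa : G.Adj a f) (fb : G.Adj b f) (fc : G.Adj c f) (n2 : X s a p f → X s b p f → T s p a b)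
    (n3 : X s a p f → X s c p f → T s p a c) (n4 : X s b p f → X s c p f → T s p b c)
    (m1 : X s a p f → X s b p f → X s c p f → (T p a b c ↔ T s a b c))
    (m2 : X s a p f → X s b p f → X s c p f → (T p b a c ↔ T s b a c))
    (m3 : X s a p f → X s b p f → X s c p f → (T p c a b ↔ T s c a b))
    (g1 : X a b f s) (g2 : X a c f s) (g3 : ¬ T s a b c) : False := by
  refine nc1_ref (p := pt [s, p, a, b, c, f] s) (S := (oY h q).rel) (pt_inj nd rfl) ?_
  refine ((oO_h (Y := oY h q) h).phs _ _).app (((oQ_h (Y := oY h q) q).phs _ _).app ?_)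
  exact (.cons (fun d hd n01 h0 => hc _ _ h0) (.cons (fun d hd h0 => h0 k.1) (.cons (fun d hd h0 => h0 k.2.1) (.cons (fun d hd h0 => h0 k.2.2.1) (.cons (fun d hd h0 => h0 k.2.2.2.1) (.cons (fun d hd h0 => h0 k.2.2.2.2.1) (.cons (fun d hd h0 => h0 k.2.2.2.2.2.1) (.cons (fun d hd h0 => h0 k.2.2.2.2.2.2.1) (.cons (fun d hd h0 => h0 k.2.2.2.2.2.2.2.1) (.cons (fun d hd h0 => h0 k.2.2.2.2.2.2.2.2.1) (.cons (fun d hd h0 => h0 k.2.2.2.2.2.2.2.2.2) (.cons (fun d hd h0 => h0 f1) (.cons (fun d hd h0 => f2 h0) (.cons (fun d hd h0 => h0 fa) (.cons (fun d hd h0 => h0 fb) (.cons (fun d hd h0 => h0 fc) (.cons (fun d hd h0 h1 h2 => h2 (n2 h0 h1)) (.cons (fun d hd h0 h1 h2 => h2 (n3 h0 h1)) (.cons (fun d hd h0 h1 h2 => h2 (n4 h0 h1)) (.cons (fun d hd h0 h1 h2 h3 h4 => h4 ((m1 h0 h1 h2).1 h3)) (.cons (fun d hd h0 h1 h2 h3 h4 => h3 ((m1 h0 h1 h2).2 h4)) (.cons (fun d hd h0 h1 h2 h3 h4 => h4 ((m2 h0 h1 h2).1 h3)) (.cons (fun d hd h0 h1 h2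 h3 h4 => h3 ((m2 h0 h1 h2).2 h4)) (.cons (fun d hd h0 h1 h2 h3 h4 => h4 ((m3 h0 h1 h2).1 h3)) (.cons (fun d hd h0 h1 h2 h3 h4 => h3 ((m3 h0 h1 h2).2 h4)) (.cons (fun d hd h0 => h0 g1) (.cons (fun d hd h0 => h0 g2) (.cons (fun d hd h0 => g3 h0) .nil))))))))))))))))))))))))))))

/-- templates -/
def aa1_x : List Tm := [
  ⟨2, [], [(0, 1)], [.q false 0 8 9 0 1]⟩,
  ⟨0, [], [], [.b true 0 8 9]⟩,
  ⟨0, [], [], [.b true 0 8 10]⟩,
  ⟨0, [], [], [.b true 0 8 11]⟩,
  ⟨0, [], [], [.b true 0 9 10]⟩,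
  ⟨0, [], [], [.b true 0 9 11]⟩,
  ⟨0, [], [], [.b true 0 10 11]⟩,
  ⟨0, [], [], [.b true 0 12 9]⟩,
  ⟨0, [], [], [.b false 0 12 8]⟩,
  ⟨0, [], [], [.b true 0 13 9]⟩,
  ⟨0, [], [], [.b false 0 13 8]⟩,
  ⟨0, [], [], [.b true 0 10 12]⟩,
  ⟨0, [], [], [.b true 0 10 13]⟩,
  ⟨0, [], [], [.q true 0 12 13 8 10]⟩,
  ⟨0, [], [], [.b true 0 11 12]⟩,
  ⟨0, [], [], [.b true 0 11 13]⟩,
  ⟨0, [], [], [.q true 0 12 13 8 11]⟩,
  ⟨0, [], [], [.q false 1 8 9 10 11]⟩]

def aa1_p0 : List Nat := [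
0x4a8200700000841700000a41703e6000301,
0x6840090000000270325000201,
0x48a0090000000270371000201,
0x6a400900000002b03c5000201,
0x4a800900000002b03af000201,
0xa8400300000003103ae000201,
0x8a40030000000310370000201,
0x240a80700000000200000003101d1000301,
0xa4800f00000000a00000000600000001b000000031022e000501,
0x82a40700000a41700000000c03b0000301,
0xa2840700000841700000000e0390000301,
0xa8420b00000001003ed000201,
0x6a480900000001203d7000201,
0x4a680900000001203b5000201,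
0x640a80500000003100000003703f4000301,
0x280641100086420f00086400f002a68407000a6840700000003900000002100000002d00000001d00000000400000001600000000e010c03d6000c02,
0x2a06411000a6420f000a6400f00286a40700086a407000a8640100000002000286a413002a6841300000003900000002100000002f00000001d00000000800000001400000000c00000001e00000001803f5001201,
0x8a640f00000003300000001a00000002f00000002203b4000501,
0xa8640f00000003500000001c00000002d00000002203d6000501,
0xa8640100000001e000000026000000024000400]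

def aa1_pf : List Nat := aa1_p0

theorem aa1_ref {V : Type} {S : SRel V} {p : Nat → V} (hp : ∀ i j, i < 6 → j < 6 → p i = p j → i = j)
    (hts : PHs S p 6 (oO ++ (oQ ++ aa1_x))) : False :=
  refuteS (k := 6) (n2 := 1) (n3 := 1) (n4 := 2) (o3 := 21) (o4 := 77) (M := 539) (oO ++ (oQ ++ aa1_x)) aa1_pf (by decide +kernel)
    (by decide +kernel) (by decide +kernel) (by decide +kernel) hp hts

theorem aa1 {V : Type} {G : SimpleGraph V} {X T : V → V → V → V → Prop} (h : Sepr X) (q : QT G X T)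
    {s p a b y z : V} (nd : [s, p, a, b, y, z].Nodup) (hc : ∀ c d, ¬ X s p c d) (k : K4 G s p a b)
    (y1 : G.Adj y p) (y2 : ¬ G.Adj y s) (z1 : G.Adj z p) (z2 : ¬ G.Adj z s)
    (ya : G.Adj a y) (za : G.Adj a z) (xa : X y z s a) (yb : G.Adj b y) (zb : G.Adj b z) (xb : X y z s b)
    (g1 : ¬ T s p a b) : False := by
  refine aa1_ref (p := pt [s, p, a, b, y, z] s) (S := (oY h q).rel) (pt_inj nd rfl) ?_
  refine ((oO_h (Y := oY h q) h).phs _ _).app (((oQ_h (Y := oY h q) q).phs _ _).app ?_)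
  exact (.cons (fun d hd n01 h0 => hc _ _ h0) (.cons (fun d hd h0 => h0 k.1) (.cons (fun d hd h0 => h0 k.2.1) (.cons (fun d hd h0 => h0 k.2.2.1) (.cons (fun d hd h0 => h0 k.2.2.2.1) (.cons (fun d hd h0 => h0 k.2.2.2.2.1) (.cons (fun d hd h0 => h0 k.2.2.2.2.2) (.cons (fun d hd h0 => h0 y1) (.cons (fun d hd h0 => y2 h0) (.cons (fun d hd h0 => h0 z1) (.cons (fun d hd h0 => z2 h0) (.cons (fun d hd h0 => h0 ya) (.cons (fun d hd h0 => h0 za) (.cons (fun d hd h0 => h0 xa) (.cons (fun d hd h0 => h0 yb) (.cons (fun d hd h0 => h0 zb) (.cons (fun d hd h0 => h0 xb) (.cons (fun d hd h0 => g1 h0) .nil))))))))))))))))))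

/-- templates -/
def ab1_x : List Tm := [
  ⟨2, [], [(0, 1)], [.q false 0 8 9 0 1]⟩,
  ⟨0, [], [], [.b true 0 8 9]⟩,
  ⟨0, [], [], [.b true 0 8 10]⟩,
  ⟨0, [], [], [.b true 0 8 11]⟩,
  ⟨0, [], [], [.b true 0 8 12]⟩,
  ⟨0, [], [], [.b true 0 9 10]⟩,
  ⟨0, [], [], [.b true 0 9 11]⟩,
  ⟨0, [], [], [.b true 0 9 12]⟩,
  ⟨0, [], [], [.b true 0 10 11]⟩,
  ⟨0, [], [], [.b true 0 10 12]⟩,
  ⟨0, [], [], [.b true 0 11 12]⟩,
  ⟨0, [], [], [.b true 0 13 9]⟩,
  ⟨0, [], [], [.b false 0 13 8]⟩,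
  ⟨0, [], [], [.b true 0 14 9]⟩,
  ⟨0, [], [], [.b false 0 14 8]⟩,
  ⟨0, [], [], [.b true 0 10 13]⟩,
  ⟨0, [], [], [.b true 0 10 14]⟩,
  ⟨0, [], [], [.q true 0 13 14 8 10]⟩,
  ⟨0, [], [], [.b true 0 11 13]⟩,
  ⟨0, [], [], [.b true 0 11 14]⟩,
  ⟨0, [], [], [.q true 0 13 14 8 11]⟩,
  ⟨0, [], [], [.b true 0 12 13]⟩,
  ⟨0, [], [], [.b true 0 12 14]⟩,
  ⟨0, [], [], [.q true 0 13 14 8 12]⟩,
  ⟨0, [], [], [.q true 1 8 10 11 12]⟩,
  ⟨0, [], [], [.q false 1 9 10 11 12]⟩]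

def ab1_p0 : List Nat := [
0x4ca200700000a41700000c41706cc000301,
0x2a400900000002f0523000201,
0x6a400900000002f0569000201,
0x2c4009000000033060d000201,
0x6c4009000000033066b000201,
0x260ca0700000000200000003f033c000301,
0x402861100000004700000004904c5000301,
0x2806413000000047000000049043f000301,
0xa2806415000000006000000047000000049056b000401,
0xc280641500000000a000000047000000049066d000401,
0x284601300000004700000000e0457000301,
0x64200f00000001600000002300000001b000000010044a000501,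
0x64200100000641700000001800a2000301,
0x46200f00000001600000002100000001d00000001a00af000501,
0xa06421300000000400000001c052d000301,
0xc06421300000000800000001c0617000301,
0xa6420f00000001200000003500000002300000001e054c000501,
0xc6420f0000000140000000370000000230000000200642000501,
0x4ca620700000000c000000024000000022000400]

def ab1_pf : List Nat := ab1_p0

theorem ab1_ref {V : Type} {S : SRel V} {p : Nat → V} (hp : ∀ i j, i < 7 → j < 7 → p i = p j → i = j)
    (hts : PHs S p 7 (oO ++ (oQ ++ ab1_x))) : False :=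
  refuteS (k := 7) (n2 := 1) (n3 := 1) (n4 := 2) (o3 := 28) (o4 := 112) (M := 924) (oO ++ (oQ ++ ab1_x)) ab1_pf (by decide +kernel)
    (by decide +kernel) (by decide +kernel) (by decide +kernel) hp hts

theorem ab1 {V : Type} {G : SimpleGraph V} {X T : V → V → V → V → Prop} (h : Sepr X) (q : QT G X T)
    {s p a b c y z : V} (nd : [s, p, a, b, c, y, z].Nodup) (hc : ∀ c d, ¬ X s p c d) (k : K5 G s p a b c)
    (y1 : G.Adj y p) (y2 : ¬ G.Adj y s) (z1 : G.Adj z p) (z2 : ¬ G.Adj z s)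
    (ya : G.Adj a y) (za : G.Adj a z) (xa : X y z s a) (yb : G.Adj b y) (zb : G.Adj b z) (xb : X y z s b) (yc : G.Adj c y) (zc : G.Adj c z) (xc : X y z s c)
    (g1 : T s a b c) (g2 : ¬ T p a b c) : False := by
  refine ab1_ref (p := pt [s, p, a, b, c, y, z] s) (S := (oY h q).rel) (pt_inj nd rfl) ?_
  refine ((oO_h (Y := oY h q) h).phs _ _).app (((oQ_h (Y := oY h q) q).phs _ _).app ?_)
  exact (.cons (fun d hd n01 h0 => hc _ _ h0) (.cons (fun d hd h0 => h0 k.1) (.cons (fun d hd h0 => h0 k.2.1) (.cons (fun d hd h0 => h0 k.2.2.1) (.cons (fun d hd h0 => h0 k.2.2.2.1) (.cons (fun d hd h0 => h0 k.2.2.2.2.1) (.cons (fun d hd h0 => h0 k.2.2.2.2.2.1) (.cons (fun d hd h0 => h0 k.2.2.2.2.2.2.1) (.cons (fun d hd h0 => h0 k.2.2.2.2.2.2.2.1) (.cons (fun d hd h0 => h0 k.2.2.2.2.2.2.2.2.1) (.cons (fun d hd h0 => h0 k.2.2.2.2.2.2.2.2.2) (.cons (fun d hd h0 => h0 y1) (.cons (fun d hd h0 => y2 h0) (.cons (fun d hd h0 => h0 z1) (.cons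 (fun d hd h0 => z2 h0) (.cons (fun d hd h0 => h0 ya) (.cons (fun d hd h0 => h0 za) (.cons (fun d hd h0 => h0 xa) (.cons (fun d hd h0 => h0 yb) (.cons (fun d hd h0 => h0 zb) (.cons (fun d hd h0 => h0 xb) (.cons (fun d hd h0 => h0 yc) (.cons (fun d hd h0 => h0 zc) (.cons (fun d hd h0 => h0 xc) (.cons (fun d hd h0 => h0 g1) (.cons (fun d hd h0 => g2 h0) .nil))))))))))))))))))))))))))

/-- templates -/
def ab2_x : List Tm := [
  ⟨2, [], [(0, 1)], [.q false 0 8 9 0 1]⟩,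
  ⟨0, [], [], [.b true 0 8 9]⟩,
  ⟨0, [], [], [.b true 0 8 10]⟩,
  ⟨0, [], [], [.b true 0 8 11]⟩,
  ⟨0, [], [], [.b true 0 8 12]⟩,
  ⟨0, [], [], [.b true 0 9 10]⟩,
  ⟨0, [], [], [.b true 0 9 11]⟩,
  ⟨0, [], [], [.b true 0 9 12]⟩,
  ⟨0, [], [], [.b true 0 10 11]⟩,
  ⟨0, [], [], [.b true 0 10 12]⟩,
  ⟨0, [], [], [.b true 0 11 12]⟩,
  ⟨0, [], [], [.b true 0 13 9]⟩,
  ⟨0, [], [], [.b false 0 13 8]⟩,
  ⟨0, [], [], [.b true 0 14 9]⟩,
  ⟨0, [], [], [.b false 0 14 8]⟩,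
  ⟨0, [], [], [.b true 0 10 13]⟩,
  ⟨0, [], [], [.b true 0 10 14]⟩,
  ⟨0, [], [], [.q true 0 13 14 8 10]⟩,
  ⟨0, [], [], [.b true 0 11 13]⟩,
  ⟨0, [], [], [.b true 0 11 14]⟩,
  ⟨0, [], [], [.q true 0 13 14 8 11]⟩,
  ⟨0, [], [], [.b true 0 12 13]⟩,
  ⟨0, [], [], [.b true 0 12 14]⟩,
  ⟨0, [], [], [.q true 0 13 14 8 12]⟩,
  ⟨0, [], [], [.q true 1 9 10 11 12]⟩,
  ⟨0, [], [], [.q false 1 8 10 11 12]⟩]

def ab2_p0 : List Nat := [
0x4ca200700000a41700000c41706cc000301,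
0x2a600900000002f0529000201,
0x4a600900000002f054b000201,
0x2c60090000000330613000201,
0x4c60090000000330641000201,
0x240ca070000000020000000390336000301,
0x420861100000004700000004904c5000301,
0x826413000000047000000049044b000301,
0x84621300000004700000000e0457000301,
0x46200f00000001200000002100000001d000000010043e000501,
0x64200100000641700000001400ae000301,
0x64200f00000001200000002300000001b00000001600a3000501,
0xa046213000000004000000018052d000301,
0xc0462130000000080000000180617000301,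
0xa026413000000006000000018054d000301,
0xc02641300000000a0000000180643000301,
0xa4620f00000001e00000003b00000002100000001a056a000501,
0xc4620f00000002000000003d00000002100000001c066c000501,
0x6ca420700000000c000000024000000022000400]

def ab2_pf : List Nat := ab2_p0

theorem ab2_ref {V : Type} {S : SRel V} {p : Nat → V} (hp : ∀ i j, i < 7 → j < 7 → p i = p j → i = j)
    (hts : PHs S p 7 (oO ++ (oQ ++ ab2_x))) : False :=
  refuteS (k := 7) (n2 := 1) (n3 := 1) (n4 := 2) (o3 := 28) (o4 := 112) (M := 924) (oO ++ (oQ ++ ab2_x)) ab2_pf (by decide +kernel)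
    (by decide +kernel) (by decide +kernel) (by decide +kernel) hp hts

theorem ab2 {V : Type} {G : SimpleGraph V} {X T : V → V → V → V → Prop} (h : Sepr X) (q : QT G X T)
    {s p a b c y z : V} (nd : [s, p, a, b, c, y, z].Nodup) (hc : ∀ c d, ¬ X s p c d) (k : K5 G s p a b c)
    (y1 : G.Adj y p) (y2 : ¬ G.Adj y s) (z1 : G.Adj z p) (z2 : ¬ G.Adj z s)
    (ya : G.Adj a y) (za : G.Adj a z) (xa : X y z s a) (yb : G.Adj b y) (zb : G.Adj b z) (xb : X y z s b) (yc : G.Adj c y) (zc : G.Adj c z) (xc : X y z s c)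
    (g1 : T p a b c) (g2 : ¬ T s a b c) : False := by
  refine ab2_ref (p := pt [s, p, a, b, c, y, z] s) (S := (oY h q).rel) (pt_inj nd rfl) ?_
  refine ((oO_h (Y := oY h q) h).phs _ _).app (((oQ_h (Y := oY h q) q).phs _ _).app ?_)
  exact (.cons (fun d hd n01 h0 => hc _ _ h0) (.cons (fun d hd h0 => h0 k.1) (.cons (fun d hd h0 => h0 k.2.1) (.cons (fun d hd h0 => h0 k.2.2.1) (.cons (fun d hd h0 => h0 k.2.2.2.1) (.cons (fun d hd h0 => h0 k.2.2.2.2.1) (.cons (fun d hd h0 => h0 k.2.2.2.2.2.1) (.cons (fun d hd h0 => h0 k.2.2.2.2.2.2.1) (.cons (fun d hd h0 => h0 k.2.2.2.2.2.2.2.1) (.cons (fun d hd h0 => h0 k.2.2.2.2.2.2.2.2.1) (.cons (fun d hd h0 => h0 k.2.2.2.2.2.2.2.2.2) (.cons (fun d hd h0 => h0 y1) (.cons (fun d hd h0 => y2 h0) (.cons (fun d hd h0 => h0 z1) (.cons (fun d hd h0 => z2 h0) (.cons (fun d hd h0 => h0 ya) (.cons (fun d hd h0 => h0 za) (.cons (fun d hd h0 => h0 xa) (.cons (fun d hd h0 => h0 yb) (.cons (fun d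 hd h0 => h0 zb) (.cons (fun d hd h0 => h0 xb) (.cons (fun d hd h0 => h0 yc) (.cons (fun d hd h0 => h0 zc) (.cons (fun d hd h0 => h0 xc) (.cons (fun d hd h0 => h0 g1) (.cons (fun d hd h0 => g2 h0) .nil))))))))))))))))))))))))))

end Pool.Agent.SOJ
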