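import Pool.Agent.SOJ.Th

/-! Project SOJ: order, refutations (generated). -/

set_option autoImplicit false
set_option maxRecDepth 100000
set_option linter.unusedVariables false

namespace Pool.Agent.SOJ

open Pool.Agent.SOC Pool.Agent.SOD Pool.Agent.RUP Pool.Agent.SOF Pool.Agent.SOG

/-- templates -/
def oo1_x : List Tm := [
  ⟨2, [], [(0, 1)], [.q false 0 8 9 0 1]⟩,
  ⟨0, [], [], [.q true 0 8 10 9 12]⟩,
  ⟨0, [], [], [.q false 0 8 11 9 12]⟩,
  ⟨0, [], [], [.q false 0 10 11 8 12]⟩]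

def oo1_p0 : List Nat := [
0x4862007000006409000008409020c000301,
0x28400300000000b01ca000201,
0x86200100000000200000000d00ae000301,
0x462800700000000400000000600b0000301,
0xf000000008000200]

def oo1_pf : List Nat := oo1_p0

theorem oo1_ref {V : Type} {S : SRel V} {p : Nat → V} (hp : ∀ i j, i < 5 → j < 5 → p i = p j → i = j)
    (hts : PHs S p 5 (oO ++ oo1_x)) : False :=
  refuteS (k := 5) (n2 := 1) (n3 := 1) (n4 := 2) (o3 := 15) (o4 := 50) (M := 290) (oO ++ oo1_x) oo1_pf (by decide +kernel)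
    (by decide +kernel) (by decide +kernel) (by decide +kernel) hp hts

theorem oo1 {V : Type} {G : SimpleGraph V} {X T : V → V → V → V → Prop} (h : Sepr X) (t1 : ∀ {a b c d}, T a b c d → T b a c d) (t2 : ∀ {a b c d}, T a b c d → T c d a b)
    {s p a b f : V} (nd : [s, p, a, b, f].Nodup) (hc : ∀ c d, ¬ X s p c d)
    (g1 : X s a p f) (g2 : ¬ X s b p f) (g3 : ¬ X a b s f) : False := by
  refine oo1_ref (p := pt [s, p, a, b, f] s) (S := (OSy.mk G X T h.swap h.comm t1 t2).rel) (pt_inj nd rfl) ?_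
  refine ((oO_h (Y := OSy.mk G X T h.swap h.comm t1 t2) h).phs _ _).app ?_
  exact (.cons (fun d hd n01 h0 => hc _ _ h0) (.cons (fun d hd h0 => h0 g1) (.cons (fun d hd h0 => g2 h0) (.cons (fun d hd h0 => g3 h0) .nil))))

/-- templates -/
def oo2_x : List Tm := [
  ⟨2, [], [(0, 1)], [.q false 0 8 9 0 1]⟩,
  ⟨0, [], [], [.q true 0 8 10 9 12]⟩,
  ⟨0, [], [], [.q true 0 8 11 9 12]⟩,
  ⟨0, [], [], [.q true 0 10 11 12 8]⟩]

def oo2_p0 : List Nat := [
0x28400300000000b01ca000201,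
0x28600300000000d01d0000201,
0x264800700000000200000000401d2000301,
0xf000000006000200]

def oo2_pf : List Nat := oo2_p0

theorem oo2_ref {V : Type} {S : SRel V} {p : Nat → V} (hp : ∀ i j, i < 5 → j < 5 → p i = p j → i = j)
    (hts : PHs S p 5 (oO ++ oo2_x)) : False :=
  refuteS (k := 5) (n2 := 1) (n3 := 1) (n4 := 2) (o3 := 15) (o4 := 50) (M := 290) (oO ++ oo2_x) oo2_pf (by decide +kernel)
    (by decide +kernel) (by decide +kernel) (by decide +kernel) hp hts

theorem oo2 {V : Type} {G : SimpleGraph V} {X T : V → V → V → V → Prop} (h : Sepr X) (t1 : ∀ {a b c d}, T a b c d → T b a c d) (t2 : ∀ {a b c d}, T a b c d → T c d a b)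
    {s p a b f : V} (nd : [s, p, a, b, f].Nodup) (hc : ∀ c d, ¬ X s p c d)
    (g1 : X s a p f) (g2 : X s b p f) (g3 : X a b f s) : False := by
  refine oo2_ref (p := pt [s, p, a, b, f] s) (S := (OSy.mk G X T h.swap h.comm t1 t2).rel) (pt_inj nd rfl) ?_
  refine ((oO_h (Y := OSy.mk G X T h.swap h.comm t1 t2) h).phs _ _).app ?_
  exact (.cons (fun d hd n01 h0 => hc _ _ h0) (.cons (fun d hd h0 => h0 g1) (.cons (fun d hd h0 => h0 g2) (.cons (fun d hd h0 => h0 g3) .nil))))

/-- templates -/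
def oo3_x : List Tm := [
  ⟨2, [], [(0, 1)], [.q false 0 8 9 0 1]⟩,
  ⟨0, [], [], [.q true 0 8 10 9 13]⟩,
  ⟨0, [], [], [.q true 0 8 11 9 13]⟩,
  ⟨0, [], [], [.q true 0 10 11 12 8]⟩,
  ⟨0, [], [], [.q false 0 8 12 9 13]⟩]

def oo3_p0 : List Nat := [
0x48620070000064090000084090320000301,
0x2a400300000000b0360000201,
0x2a600300000000d0366000201,
0x264a0070000000040000000060368000301,
0x68400300000000f0324000201,
0xa80640700000000800000000f01d9000301,
0x42860700000000200000000a0326000301,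
0x8a640300000000c03b4000201,
0x4a2860700000001000000000e0392000301,
0x860a20700000000d0000000120171000301,
0x11000000014000200]

def oo3_pf : List Nat := oo3_p0

theorem oo3_ref {V : Type} {S : SRel V} {p : Nat → V} (hp : ∀ i j, i < 6 → j < 6 → p i = p j → i = j)
    (hts : PHs S p 6 (oO ++ oo3_x)) : False :=
  refuteS (k := 6) (n2 := 1) (n3 := 1) (n4 := 2) (o3 := 21) (o4 := 77) (M := 539) (oO ++ oo3_x) oo3_pf (by decide +kernel)
    (by decide +kernel) (by decide +kernel) (by decide +kernel) hp hts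

theorem oo3 {V : Type} {G : SimpleGraph V} {X T : V → V → V → V → Prop} (h : Sepr X) (t1 : ∀ {a b c d}, T a b c d → T b a c d) (t2 : ∀ {a b c d}, T a b c d → T c d a b)
    {s p a b c f : V} (nd : [s, p, a, b, c, f].Nodup) (hc : ∀ c d, ¬ X s p c d)
    (g1 : X s a p f) (g2 : X s b p f) (g3 : X a b c s) (g4 : ¬ X s c p f) : False := by
  refine oo3_ref (p := pt [s, p, a, b, c, f] s) (S := (OSy.mk G X T h.swap h.comm t1 t2).rel) (pt_inj nd rfl) ?_
  refine ((oO_h (Y := OSy.mk G X T h.swap h.comm t1 t2) h).phs _ _).app ?_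
  exact (.cons (fun d hd n01 h0 => hc _ _ h0) (.cons (fun d hd h0 => h0 g1) (.cons (fun d hd h0 => h0 g2) (.cons (fun d hd h0 => h0 g3) (.cons (fun d hd h0 => g4 h0) .nil)))))

/-- templates -/
def ofa_x : List Tm := [
  ⟨2, [], [(0, 1)], [.q false 0 8 9 0 1]⟩,
  ⟨0, [], [], [.b true 0 9 13]⟩,
  ⟨0, [], [], [.b true 0 8 11]⟩,
  ⟨0, [], [], [.b true 0 8 12]⟩,
  ⟨0, [], [], [.b true 0 9 11]⟩,
  ⟨0, [], [], [.b true 0 9 12]⟩,
  ⟨0, [], [], [.b true 0 13 11]⟩,
  ⟨0, [], [], [.b true 0 13 12]⟩,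
  ⟨0, [], [], [.b true 0 10 9]⟩,
  ⟨0, [], [], [.b true 0 10 11]⟩,
  ⟨0, [], [], [.b true 0 10 12]⟩,
  ⟨0, [], [], [.b true 0 10 8]⟩,
  ⟨0, [], [], [.b true 0 10 13]⟩,
  ⟨0, [], [], [.b false 0 8 13]⟩,
  ⟨0, [], [], [.q true 0 8 11 9 13]⟩,
  ⟨0, [], [], [.q true 0 8 12 9 13]⟩,
  ⟨0, [], [], [.q false 0 8 10 9 13]⟩,
  ⟨0, [], [], [.q false 1 10 8 11 12]⟩]

def ofa_p0 : List Nat := [
0x6a200900000003103c1000201,
0x8a200900000003103e7000201,
0x2a60030000000330366000201,
0xa6200f00000000200000001b000000019000000033014c000501,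
0x2a8003000000035036e000201,
0xa8200f00000000400000001d0000000190000000350154000501,
0xa4200100000a4170000000370145000301,
0x460a207000000033000000037016d000301,
0x480a2070000000350000000370175000301,
0x642a00700000000600000000e014d000301,
0x842a00700000000a00000000e0155000301,
0x6a420300000001003c6000201,
0x8a420300000001203ec000201,
0x64a00b0000000140369000201,
0x84a00b0000000160371000201,
0x6a0420700000000e000000018007f000301,
0x8a0420700000000e00000001a00c3000301,
0xa42601300000000800000001c02b3000301,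
0xa42801300000000c00000001e0307000301,
0x46200f00000002400000002700000001b000000020008c000501,
0x48200f00000002600000002700000001d00000002200d8000501,
0x826401100000002800000002a010a000301,
0x3900000002c000200]

def ofa_pf : List Nat := ofa_p0

theorem ofa_ref {V : Type} {S : SRel V} {p : Nat → V} (hp : ∀ i j, i < 6 → j < 6 → p i = p j → i = j)
    (hts : PHs S p 6 (oO ++ (oQ ++ ofa_x))) : False :=
  refuteS (k := 6) (n2 := 1) (n3 := 1) (n4 := 2) (o3 := 21) (o4 := 77) (M := 539) (oO ++ (oQ ++ ofa_x)) ofa_pf (by decide +kernel)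
    (by decide +kernel) (by decide +kernel) (by decide +kernel) hp hts

theorem ofa {V : Type} {G : SimpleGraph V} {X T : V → V → V → V → Prop} (h : Sepr X) (q : QT G X T)
    {s p a x y f : V} (nd : [s, p, a, x, y, f].Nodup) (hc : ∀ c d, ¬ X s p c d)
    (e0 : G.Adj p f) (e1 : G.Adj s x) (e2 : G.Adj s y) (e3 : G.Adj p x) (e4 : G.Adj p y) (e5 : G.Adj f x) (e6 : G.Adj f y) (e7 : G.Adj a p) (e8 : G.Adj a x) (e9 : G.Adj a y) (e10 : G.Adj a s) (e11 : G.Adj a f)
    (e12 : ¬ G.Adj s f) (g1 : X s x p f) (g2 : X s y p f) (g3 : ¬ X s a p f) (g4 : ¬ T a s x y) : False := by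
  refine ofa_ref (p := pt [s, p, a, x, y, f] s) (S := (oY h q).rel) (pt_inj nd rfl) ?_
  refine ((oO_h (Y := oY h q) h).phs _ _).app (((oQ_h (Y := oY h q) q).phs _ _).app ?_)
  exact (.cons (fun d hd n01 h0 => hc _ _ h0) (.cons (fun d hd h0 => h0 e0) (.cons (fun d hd h0 => h0 e1) (.cons (fun d hd h0 => h0 e2) (.cons (fun d hd h0 => h0 e3) (.cons (fun d hd h0 => h0 e4) (.cons (fun d hd h0 => h0 e5) (.cons (fun d hd h0 => h0 e6) (.cons (fun d hd h0 => h0 e7) (.cons (fun d hd h0 => h0 e8) (.cons (fun d hd h0 => h0 e9) (.cons (fun d hd h0 => h0 e10) (.cons (fun d hd h0 => h0 e11) (.cons (fun d hd h0 => e12 h0) (.cons (fun d hd h0 => h0 g1) (.cons (fun d hd h0 => h0 g2) (.cons (fun d hd h0 => g3 h0) (.cons (fun d hd h0 => g4 h0) .nil))))))))))))))))))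

end Pool.Agent.SOJ
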