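import Pool.Agent.SOJ.Defs

/-! Project SOJ: templates (generated). -/

set_option autoImplicit false
set_option maxRecDepth 100000
set_option linter.unusedVariables false

namespace Pool.Agent.SOJ

open Pool.Agent.SOC Pool.Agent.SOD Pool.Agent.RUP Pool.Agent.SOF Pool.Agent.SOG

/-- graph, crossing relation, structure -/
structure OSy (V : Type) where
  G : SimpleGraph V
  X : V → V → V → V → Prop
  T : V → V → V → V → Prop
  x1 : ∀ {a b c d}, X a b c d → X b a c d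
  x2 : ∀ {a b c d}, X a b c d → X c d a b
  t1 : ∀ {a b c d}, T a b c d → T b a c d
  t2 : ∀ {a b c d}, T a b c d → T c d a b

/-- the relations -/
def OSy.rel {V : Type} (Y : OSy V) : SRel V where
  r2 := fun r a b => match r with
    | 0 => Y.G.Adj a b
    | _ => False
  r3 := fun _ _ _ _ => False
  r4 := fun r a b c d => match r with
    | 0 => Y.X a b c d
    | 1 => Y.T a b c d
    | _ => False
  s2 := by
    intro r a b h
    match r, h with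
    | 0, h => exact SimpleGraph.Adj.symm h
  s3 := fun h => h
  s3' := fun h => h
  s4 := by
    intro r a b c d h
    match r, h with
    | 0, h => exact Y.x1 h
    | 1, h => exact Y.t1 h
  s4' := by
    intro r a b c d h
    match r, h with
    | 0, h => exact Y.x2 h
    | 1, h => exact Y.t2 h

/-- from a structure -/
def oY {V : Type} {G : SimpleGraph V} {X T : V → V → V → V → Prop} (h : Sepr X) (q : QT G X T) : OSy V :=
  ⟨G, X, T, h.swap, h.comm, q.swap₁, q.swap₂⟩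

/-- templates -/
def oO : List Tm := [
  ⟨4, [], ad4, [.q true 0 0 1 2 3, .q true 0 0 2 1 3, .q true 0 0 3 1 2]⟩,
  ⟨4, [], ad4, [.q false 0 0 1 2 3, .q false 0 0 2 1 3]⟩,
  ⟨5, [], ad5, [.q false 0 0 1 2 3, .q false 0 0 1 3 4, .q false 0 0 1 2 4]⟩,
  ⟨5, [], ad5, [.q false 0 0 1 2 3, .q true 0 0 1 3 4, .q true 0 0 1 2 4]⟩]

theorem oO_h {V : Type} {Y : OSy V} (h : Sepr Y.X) : UHs Y.rel oO :=
  .cons (fun v n01 n02 n03 n12 n13 n23 h0 h1 h2 => (h.one n01 n02 n03 n12 n13 n23).elim h0 (fun k => k.elim h1 h2)) (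
  .cons (fun v n01 n02 n03 n12 n13 n23 h0 h1 => h.amo h0 h1) (
  .cons (fun v n01 n02 n03 n04 n12 n13 n14 n23 n24 n34 h0 h1 h2 => h.add h0 h1 h2) (
  .cons (fun v n01 n02 n03 n04 n12 n13 n14 n23 n24 n34 h0 h1 h2 => (h.add2 h0 n34 n24 n04 n14).elim h1 h2) (
  .nil))))

/-- templates -/
def oQ : List Tm := [
  ⟨4, [], ad4, [.q false 1 0 1 2 3, .b true 0 0 2]⟩,
  ⟨4, [], ad4, [.q false 1 0 1 2 3, .q false 0 0 1 2 3]⟩,
  ⟨4, [], ad4, [.q false 1 0 1 2 3, .q false 1 0 2 1 3]⟩,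
  ⟨4, [], ad4, [.b false 0 0 2, .b false 0 1 3, .q false 0 0 2 1 3, .q true 1 0 1 2 3, .q true 1 0 3 1 2]⟩,
  ⟨5, [], ad5, [.q false 1 0 1 2 3, .q false 1 0 1 3 4, .q true 1 0 1 2 4]⟩,
  ⟨5, [], ad5, [.q false 1 0 2 1 3, .q false 1 0 4 1 2, .q true 1 0 4 1 3]⟩,
  ⟨6, [], ad6, [.q false 1 0 2 1 3, .q false 1 0 4 1 5, .q true 1 0 2 1 5, .q true 1 0 4 1 3]⟩]

theorem oQ_h {V : Type} {Y : OSy V} (q : QT Y.G Y.X Y.T) : UHs Y.rel oQ :=
  .cons (fun v n01 n02 n03 n12 n13 n23 h0 h1 => h1 (q.adj h0)) (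
  .cons (fun v n01 n02 n03 n12 n13 n23 h0 h1 => q.nocross h0 h1) (
  .cons (fun v n01 n02 n03 n12 n13 n23 h0 h1 => q.notboth (q.swap₂ (q.swap₁ (q.swap₂ h0))) h1) (
  .cons (fun v n01 n02 n03 n12 n13 n23 h0 h1 h2 h3 h4 => (q.some h0 h1 n01 n03 n12 n23 h2).elim h3 h4) (
  .cons (fun v n01 n02 n03 n04 n12 n13 n14 n23 n24 n34 h0 h1 h2 => h2 (q.trans h0 h1 n24)) (
  .cons (fun v n01 n02 n03 n04 n12 n13 n14 n23 n24 n34 h0 h1 h2 => (q.ferrers h0 h1).elim (fun k => (q.adj (q.swap₂ (q.swap₁ (q.swap₂ (q.swap₁ k))))).ne rfl) h2) (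
  .cons (fun v n01 n02 n03 n04 n05 n12 n13 n14 n15 n23 n24 n25 n34 n35 n45 h0 h1 h2 h3 => (q.ferrers h0 h1).elim h2 h3) (
  .nil)))))))

end Pool.Agent.SOJ
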